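import Pool.Agent.Q315.LR.Cen

/-! # The principal congruence subgroups are central modulo the elementary matrices -/

set_option autoImplicit false

namespace Pool.Agent.Q315.LR

open Function Matrix Pool.Agent.Q98.DF Pool.Agent.H185.ZM

variable {n : ℕ}

theorem el_mul_apply {i j : Fin n} (h : i ≠ j) (t : ℤ) (g : SLZ n) (x o : Fin n) :
    (el h t * g).1 x o = g.1 x o + if x = i then t * g.1 j o else 0 := by
  rw [Matrix.SpecialLinearGroup.coe_mul, el_coe, add_mul, one_mul, Matrix.add_apply]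
  congr 1
  by_cases hx : x = i
  · subst hx
    rw [Matrix.single_mul_apply_same, if_pos rfl]
  · rw [Matrix.single_mul_apply_of_ne _ _ _ _ _ hx, if_neg hx]

theorem mul_el_apply {i j : Fin n} (h : i ≠ j) (t : ℤ) (g : SLZ n) (x o : Fin n) (ho : o ≠ j) :
    (g * el h t).1 x o = g.1 x o := by
  rw [Matrix.SpecialLinearGroup.coe_mul, el_coe, mul_add, mul_one, Matrix.add_apply,
    Matrix.mul_single_apply_of_ne _ _ _ _ _ ho, add_zero]

theorem conj_el_apply {i j : Fin n} (h : i ≠ j) (t : ℤ) (g : SLZ n) (x o : Fin n) (ho : j ≠ o) :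
    (el h t * g * (el h t)⁻¹).1 x o = g.1 x o + if x = i then t * g.1 j o else 0 := by
  rw [el_inv, mul_el_apply h _ _ _ _ (Ne.symm ho), el_mul_apply]

/-- reduction modulo `q` -/
def red (n q : ℕ) : SLZ n →* Matrix.SpecialLinearGroup (Fin n) (ZMod q) :=
  Matrix.SpecialLinearGroup.map (Int.castRingHom (ZMod q))

theorem cong_iff (q : ℕ) (g : SLZ n) : Cong (q : ℤ) g ↔ red n q g = 1 := by
  constructor
  · intro h
    apply Subtype.ext
    ext i j
    change ((g.1 i j : ℤ) : ZMod q) = (1 : Matrix (Fin n) (Fin n) (ZMod q)) i j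
    have h1 := h i j
    rw [← ZMod.intCast_zmod_eq_zero_iff_dvd, Int.cast_sub, sub_eq_zero] at h1
    rw [h1, Matrix.one_apply, Matrix.one_apply]
    split_ifs <;> simp
  · intro h i j
    have h1 : ((g.1 i j : ℤ) : ZMod q) = (1 : Matrix (Fin n) (Fin n) (ZMod q)) i j :=
      congrFun (congrFun (congrArg Subtype.val h) i) j
    rw [← ZMod.intCast_zmod_eq_zero_iff_dvd, Int.cast_sub, sub_eq_zero, h1, Matrix.one_apply,
      Matrix.one_apply]
    split_ifs <;> simp

theorem cong_el (q : ℕ) {i j : Fin n} (h : i ≠ j) (c : ℤ) : Cong (q : ℤ) (el h ((q : ℤ) * c)) := by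
  intro x y
  rw [el_coe, Matrix.add_apply, add_sub_cancel_left, single_apply]
  split_ifs
  · exact dvd_mul_right _ _
  · exact dvd_zero _

theorem Cong.mul {q : ℕ} {g h : SLZ n} (hg : Cong (q : ℤ) g) (hh : Cong (q : ℤ) h) :
    Cong (q : ℤ) (g * h) := by
  rw [cong_iff] at *
  rw [map_mul, hg, hh, one_mul]

theorem Cong.conj {q : ℕ} {g : SLZ n} (hg : Cong (q : ℤ) g) (s : SLZ n) :
    Cong (q : ℤ) (s * g * s⁻¹) := by
  rw [cong_iff] at *
  rw [map_mul, map_mul, hg, mul_one, ← map_mul, mul_inv_cancel, map_one]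

variable {N : Subgroup (SLZ n)} [hNn : N.Normal]

include hNn in
theorem cen_col (q : ℕ) (hN : Has (q : ℤ) N) (o : Fin n) (g : SLZ n) (hg : Cong (q : ℤ) g)
    (hc : ∀ i, g.1 i o = if i = o then 1 else 0) : Cen N g := by
  classical
  let s : Finset (Fin n) := Finset.univ.erase o
  have hs : o ∉ s := Finset.notMem_erase _ _
  obtain ⟨u, hu, huN⟩ := row_mem (q : ℤ) N hN o s hs (fun k => - g.1 o k)
  have huN' : u ∈ N := by
    apply huN
    intro k hk
    have hk' : o ≠ k := fun h => hs (h ▸ hk)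
    have h1 := hg o k
    rw [Matrix.one_apply_ne hk', sub_zero] at h1
    exact (dvd_neg).mpr h1
  rw [← cen_mul_right huN']
  have key : ∀ x y, (g * u).1 x y = if x = o then (if y = o then 1 else 0) else g.1 x y := by
    intro x y
    rw [Matrix.SpecialLinearGroup.coe_mul, hu, mul_add, mul_one, Matrix.add_apply, Finset.mul_sum,
      Matrix.sum_apply]
    have e1 : ∀ k ∈ s, (g.1 * single o k (-g.1 o k)) x y =
        if y = k then (if x = o then - g.1 o k else 0) else 0 := by
      intro k _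
      by_cases hy : y = k
      · subst hy
        rw [Matrix.mul_single_apply_same, hc x, if_pos rfl]
        by_cases hx : x = o <;> simp [hx]
      · rw [Matrix.mul_single_apply_of_ne _ _ _ _ _ hy, if_neg hy]
    rw [Finset.sum_congr rfl e1, Finset.sum_ite_eq]
    by_cases hx : x = o
    · by_cases hy : y = o
      · rw [if_neg (by rw [hy]; exact hs), if_pos hx, if_pos hy, hx, hy, hc o, if_pos rfl, add_zero]
      · rw [if_pos (by simp [s, hy]), if_pos hx, if_pos hx, if_neg hy, hx]
        ring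
    · rw [if_neg hx, if_neg hx]
      split_ifs <;> simp
  apply cen_block (q : ℤ) hN o
  · intro x y
    rw [key]
    by_cases hx : x = o
    · rw [if_pos hx, hx]
      by_cases hy : y = o
      · rw [if_pos hy, hy]; simp
      · rw [if_neg hy, Matrix.one_apply_ne (Ne.symm hy)]; simp
    · rw [if_neg hx]
      exact hg x y
  · intro i
    rw [key]
    by_cases hi : i = o
    · rw [if_pos hi, if_pos rfl, if_pos hi]
    · rw [if_neg hi, if_neg hi, hc i, if_neg hi]
  · intro i
    rw [key, if_pos rfl]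

include hNn in
theorem cen_final (q : ℕ) (hN : Has (q : ℤ) N) (o k : Fin n) (hk : k ≠ o) (g : SLZ n)
    (hg : Cong (q : ℤ) g) (hd : g.1 k o = q ∨ g.1 k o = - (q : ℤ))
    (h0 : ∀ i, i ≠ o → i ≠ k → g.1 i o = 0) : Cen N g := by
  obtain ⟨w, hw⟩ := hg o o
  rw [Matrix.one_apply_eq] at hw
  obtain ⟨e, he, hed⟩ : ∃ e : ℤ, e * e = 1 ∧ g.1 k o = q * e := by
    rcases hd with h | h
    · exact ⟨1, by norm_num, by rw [h, mul_one]⟩
    · exact ⟨-1, by norm_num, by rw [h]; ring⟩
  apply cen_conj (s := el (Ne.symm hk) (-(w * e)))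
  set g1 := el (Ne.symm hk) (-(w * e)) * g * (el (Ne.symm hk) (-(w * e)))⁻¹ with hg1
  have v1 : ∀ x, g1.1 x o = g.1 x o + if x = o then -(w * e) * g.1 k o else 0 :=
    fun x => conj_el_apply _ _ _ _ _ hk
  have c1 : Cong (q : ℤ) g1 := hg.conj _
  have ho1 : g1.1 o o = 1 := by
    rw [v1, if_pos rfl, hed]
    linear_combination hw - (q : ℤ) * w * he
  have hk1 : g1.1 k o = q * e := by rw [v1, if_neg hk, add_zero, hed]
  have hN1 : el hk ((q : ℤ) * (-e)) ∈ N := hN _ _ _ _
  rw [← cen_mul_left hN1]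
  apply cen_col q hN o _ ((cong_el q hk (-e)).mul c1)
  intro i
  rw [el_mul_apply]
  by_cases hio : i = o
  · rw [if_pos hio, hio, if_neg (Ne.symm hk), ho1, add_zero]
  · rw [if_neg hio]
    by_cases hik : i = k
    · rw [if_pos hik, hik, hk1, ho1]
      ring
    · rw [if_neg hik, v1, if_neg hio, h0 i hio hik]
      ring

theorem exists_sub {a b : ℤ} (hb : b ≠ 0) (h : b.natAbs ≤ a.natAbs) :
    ∃ t : ℤ, (a + t * b).natAbs < a.natAbs := by
  rcases le_total 0 a with ha | ha <;> rcases le_total 0 b with hb' | hb'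
  · exact ⟨-1, by omega⟩
  · exact ⟨1, by omega⟩
  · exact ⟨1, by omega⟩
  · exact ⟨-1, by omega⟩

theorem exists_bal (a d : ℤ) (hd : d ≠ 0) : ∃ t r : ℤ, a = t * d + r ∧ 2 * r.natAbs ≤ d.natAbs := by
  have h1 := Int.emod_add_mul_ediv a d
  have h2 := Int.emod_nonneg a hd
  have h3 := Int.emod_lt_abs a hd
  by_cases h4 : 2 * (a % d) ≤ |d|
  · refine ⟨a / d, a % d, by linear_combination -h1, ?_⟩
    have : |d| = (d.natAbs : ℤ) := Int.abs_eq_natAbs d
    omega
  · rcases le_total 0 d with hd' | hd'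
    · refine ⟨a / d + 1, a % d - d, by linear_combination -h1, ?_⟩
      rw [abs_of_nonneg hd'] at h3 h4
      omega
    · refine ⟨a / d - 1, a % d + d, by linear_combination -h1, ?_⟩
      rw [abs_of_nonpos hd'] at h3 h4
      omega

include hNn in
/-- **Centrality.** -/
theorem cen_all (hn : 3 ≤ n) (q : ℕ) (hq : 0 < q) (hN : Has (q : ℤ) N) (o : Fin n) :
    ∀ (s : ℕ) (g : SLZ n), Cong (q : ℤ) g →
      (∑ i ∈ Finset.univ.erase o, (g.1 i o).natAbs) = s → Cen N g := by
  classical
  intro s
  induction s using Nat.strong_induction_on with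
  | _ s ih =>
  intro g hg hs
  by_cases hA : ∃ i j, i ≠ o ∧ j ≠ o ∧ i ≠ j ∧ g.1 j o ≠ 0 ∧ (g.1 j o).natAbs ≤ (g.1 i o).natAbs
  · obtain ⟨i, j, hi, hj, hij, hj0, hle⟩ := hA
    obtain ⟨t, ht⟩ := exists_sub hj0 hle
    apply cen_conj (s := el hij t)
    refine ih _ ?_ _ (hg.conj _) rfl
    rw [← hs]
    apply Finset.sum_lt_sum
    · intro x _
      rw [conj_el_apply _ _ _ _ _ hj]
      by_cases hx : x = i
      · rw [if_pos hx, hx]; exact ht.le
      · rw [if_neg hx, add_zero]
    · refine ⟨i, by simp [hi], ?_⟩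
      rw [conj_el_apply _ _ _ _ _ hj, if_pos rfl]
      exact ht
  push Not at hA
  have hone : ∀ i j, i ≠ o → j ≠ o → i ≠ j → g.1 i o ≠ 0 → g.1 j o = 0 := by
    intro i j hi hj hij hi0
    by_contra hj0
    rcases le_total (g.1 j o).natAbs (g.1 i o).natAbs with h | h
    · exact absurd h (not_le.mpr (hA i j hi hj hij hj0))
    · exact absurd h (not_le.mpr (hA j i hj hi (Ne.symm hij) hi0))
  -- the column is unimodular
  have hdet : ∑ k, g⁻¹.1 o k * g.1 k o = 1 := by
    have h1 : (g⁻¹ * g).1 o o = 1 := by rw [inv_mul_cancel]; simp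
    rwa [Matrix.SpecialLinearGroup.coe_mul, Matrix.mul_apply] at h1
  have hex : ∀ a b : Fin n, ∃ c, c ≠ a ∧ c ≠ b := by
    intro a b
    obtain ⟨c, hc⟩ := Finset.exists_mem_notMem_of_card_lt_card
      (s := ({a, b} : Finset (Fin n))) (t := Finset.univ) (by
        rw [Finset.card_univ, Fintype.card_fin]
        exact lt_of_le_of_lt Finset.card_le_two (by omega))
    have h2 := hc.2
    simp only [Finset.mem_insert, Finset.mem_singleton, not_or] at h2
    exact ⟨c, h2⟩
  by_cases hB : ∃ i, i ≠ o ∧ g.1 i o ≠ 0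
  · obtain ⟨i, hi, hi0⟩ := hB
    have hz : ∀ j, j ≠ o → j ≠ i → g.1 j o = 0 := fun j hj hji =>
      hone i j hi hj (Ne.symm hji) hi0
    set d := g.1 i o with hd
    have hqd : (q : ℤ) ∣ d := by
      have h1 := hg i o
      rwa [Matrix.one_apply_ne hi, sub_zero] at h1
    have hcop : IsCoprime d (g.1 o o) := by
      refine ⟨g⁻¹.1 o i, g⁻¹.1 o o, Eq.trans ?_ hdet⟩
      rw [← Finset.sum_subset (Finset.subset_univ ({i, o} : Finset (Fin n))),
        Finset.sum_pair hi]
      intro x _ hx
      simp only [Finset.mem_insert, Finset.mem_singleton, not_or] at hx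
      rw [hz x hx.2 hx.1, mul_zero]
    by_cases hdq : d.natAbs = q
    · exact cen_final q hN o i hi g hg (by rw [← hd]; omega) hz
    · obtain ⟨k, hki, hko⟩ := hex i o
      obtain ⟨t, r, htr, hr⟩ := exists_bal ((q : ℤ) * g.1 o o) d hi0
      have hr0 : r ≠ 0 := by
        rintro rfl
        rw [add_zero] at htr
        have h1 : d ∣ (q : ℤ) * g.1 o o := ⟨t, by rw [htr]; ring⟩
        have h2 : d ∣ (q : ℤ) := hcop.dvd_of_dvd_mul_right h1
        have h3 := Int.natAbs_dvd_natAbs.mpr h2
        have h4 := Int.natAbs_dvd_natAbs.mpr hqd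
        rw [Int.natAbs_natCast] at h3 h4
        exact hdq (Nat.dvd_antisymm h3 h4)
      -- three moves
      have hN1 : el hko ((q : ℤ) * 1) ∈ N := hN _ _ _ _
      rw [← cen_mul_left hN1]
      set g1 := el hko ((q : ℤ) * 1) * g with hg1
      have c1 : Cong (q : ℤ) g1 := (cong_el q hko 1).mul hg
      have v1 : ∀ x, g1.1 x o = g.1 x o + if x = k then (q : ℤ) * 1 * g.1 o o else 0 :=
        fun x => el_mul_apply _ _ _ _ _
      apply cen_conj (s := el hki (-t))
      set g2 := el hki (-t) * g1 * (el hki (-t))⁻¹ with hg2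
      have c2 : Cong (q : ℤ) g2 := c1.conj _
      have v2 : ∀ x, g2.1 x o = g1.1 x o + if x = k then -t * g1.1 i o else 0 :=
        fun x => conj_el_apply _ _ _ _ _ hi
      have g1i : g1.1 i o = d := by rw [v1, if_neg (Ne.symm hki), add_zero]
      have g2k : g2.1 k o = r := by
        rw [v2, if_pos rfl, g1i, v1, if_pos rfl, hz k hko hki]
        linear_combination htr
      have g2i : g2.1 i o = d := by rw [v2, if_neg (Ne.symm hki), add_zero, g1i]
      apply cen_conj (s := el (Ne.symm hki) (-(d / r)))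
      refine ih _ ?_ _ (c2.conj _) rfl
      have v3 : ∀ x, (el (Ne.symm hki) (-(d / r)) * g2 * (el (Ne.symm hki) (-(d / r)))⁻¹).1 x o =
          g2.1 x o + if x = i then -(d / r) * g2.1 k o else 0 :=
        fun x => conj_el_apply _ _ _ _ _ hko
      have hsum : ∀ f : Fin n → ℤ, (∀ x, x ≠ o → x ≠ i → x ≠ k → f x = 0) →
          ∑ x ∈ Finset.univ.erase o, (f x).natAbs = (f i).natAbs + (f k).natAbs := by
        intro f hf
        rw [← Finset.sum_subset (s₁ := ({i, k} : Finset (Fin n))), Finset.sum_pair (Ne.symm hki)]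
        · intro x hx
          simp only [Finset.mem_insert, Finset.mem_singleton] at hx
          rcases hx with rfl | rfl
          · simp [hi]
          · simp [hko]
        · intro x hx hx2
          simp only [Finset.mem_insert, Finset.mem_singleton, not_or] at hx2
          rw [hf x (Finset.ne_of_mem_erase hx) hx2.1 hx2.2, Int.natAbs_zero]
      rw [hsum, v3, v3, if_pos rfl, if_neg hki, add_zero, g2i, g2k]
      · have e1 : ∑ x ∈ Finset.univ.erase o, (g.1 x o).natAbs = d.natAbs + (g.1 k o).natAbs :=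
          hsum (fun x => g.1 x o) (fun x hx hxi _ => hz x hx hxi)
        rw [hz k hko hki, Int.natAbs_zero, add_zero] at e1
        rw [← hs, e1]
        have e2 : d + -(d / r) * r = d % r := by
          have := Int.emod_add_mul_ediv d r
          linear_combination -this
        rw [e2]
        have e3 := Int.emod_nonneg d hr0
        have e4 := Int.emod_lt_abs d hr0
        rw [Int.abs_eq_natAbs] at e4
        omega
      · intro x hx hxi hxk
        rw [v3, if_neg hxi, add_zero, v2, if_neg hxk, add_zero, v1, if_neg hxk, add_zero,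
          hz x hx hxi]
  · push Not at hB
    obtain ⟨k, hko, -⟩ := hex o o
    have hu : g⁻¹.1 o o * g.1 o o = 1 := by
      refine Eq.trans ?_ hdet
      symm
      apply Finset.sum_eq_single o
      · intro x _ hx
        rw [hB x hx, mul_zero]
      · simp
    have hN1 : el hko ((q : ℤ) * 1) ∈ N := hN _ _ _ _
    rw [← cen_mul_left hN1]
    have v1 : ∀ x, (el hko ((q : ℤ) * 1) * g).1 x o = g.1 x o + if x = k then (q : ℤ) * 1 * g.1 o o else 0 :=
      fun x => el_mul_apply _ _ _ _ _
    apply cen_final q hN o k hko _ ((cong_el q hko 1).mul hg)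
    · rw [v1, if_pos rfl, hB k hko, zero_add, mul_one]
      have h1 : IsUnit (g.1 o o) := IsUnit.of_mul_eq_one _ ((mul_comm _ _).trans hu)
      rcases Int.isUnit_iff.mp h1 with h | h
      · left; rw [h, mul_one]
      · right; rw [h]; ring
    · intro i hi hik
      rw [v1, if_neg hik, add_zero, hB i hi]

end Pool.Agent.Q315.LR
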