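import Pool.Agent.Q315.LR.Ind
import Pool.Agent.Q98.DF.SLn

/-! # Small representations over finite fields of groups with the finite quotients of `SL(n,ℤ)` -/

set_option autoImplicit false

namespace Pool.Agent.Q315.LR

open Module Function Pool.Agent.Q98.DF Pool.Agent.H185.ZM

/-- representations of `SL(n,ℤ)` of dimension less than `n` are trivial -/
theorem sl_trivial {n : ℕ} (hn : 3 ≤ n) {K V : Type*} [Field K] [AddCommGroup V] [Module K V]
    [FiniteDimensional K V] (hd : finrank K V < n) (ρ : SLZ n →* End K V) (g : SLZ n) :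
    ρ g = 1 := by
  classical
  let d := finrank K V
  let b : Basis (Fin d) K V := finBasis K V
  let F := AlgebraicClosure K
  -- to the algebraic closure
  let Φ : End K V →* End F (Fin d → F) :=
    ((Matrix.toLinAlgEquiv' : Matrix (Fin d) (Fin d) F ≃ₐ[F] _) :
        Matrix (Fin d) (Fin d) F →* End F (Fin d → F)).comp
      (((algebraMap K F).mapMatrix : Matrix (Fin d) (Fin d) K →+* Matrix (Fin d) (Fin d) F) :
        Matrix (Fin d) (Fin d) K →* Matrix (Fin d) (Fin d) F) |>.comp
      ((LinearMap.toMatrixAlgEquiv b : End K V ≃ₐ[K] Matrix (Fin d) (Fin d) K) :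
        End K V →* Matrix (Fin d) (Fin d) K)
  have hΦ : Injective Φ := by
    have h1 : Injective ((algebraMap K F).mapMatrix :
        Matrix (Fin d) (Fin d) K →+* Matrix (Fin d) (Fin d) F) := by
      intro M N h
      ext i j
      have h2 := congrFun (congrFun h i) j
      exact (algebraMap K F).injective h2
    exact ((Matrix.toLinAlgEquiv' : Matrix (Fin d) (Fin d) F ≃ₐ[F] _).injective.comp h1).comp
      (LinearMap.toMatrixAlgEquiv b : End K V ≃ₐ[K] Matrix (Fin d) (Fin d) K).injective
  let σ : SLZ n →* End F (Fin d → F) := Φ.comp ρ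
  let x : Fin n → Fin n → End F (Fin d → F) := fun i j =>
    if h : i ≠ j then σ (el h (1 : ℤ)) else 1
  have hxe : ∀ i j (h : i ≠ j), x i j = σ (el h (1 : ℤ)) := fun i j h => by
    simp only [x]
    rw [dif_pos h]
  have hx : St x := by
    refine ⟨?_, ?_, ?_⟩
    · intro i j h u v huv
      rw [hxe i j h] at huv
      have h1 : σ (el h (1 : ℤ))⁻¹ * σ (el h (1 : ℤ)) = 1 := by
        rw [← map_mul, inv_mul_cancel, map_one]
      have h2 := congrArg (σ (el h (1 : ℤ))⁻¹) huv
      rw [← Module.End.mul_apply, ← Module.End.mul_apply, h1] at h2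
      exact h2
    · intro i j k hij hjk hik
      rw [hxe i j hij, hxe j k hjk, hxe i k hik, ← map_mul, ← map_mul, ← map_mul,
        el_comm hij hjk hik, mul_one]
    · intro i j k l hij hkl hjk hil
      rw [hxe i j hij, hxe k l hkl, ← map_mul, ← map_mul, el_commute hij hkl hjk hil]
  have h1 : ∀ i j (h : i ≠ j), σ (el h (1 : ℤ)) = 1 := by
    intro i j h
    rw [← hxe i j h]
    refine trivial_of_lt hx ?_ ?_ i j h
    · rw [Fintype.card_fin]; exact hn
    · rw [Fintype.card_fin, finrank_fin_fun]; exact hd
  have h2 : ∀ i j (h : i ≠ j) (c : ℤ), σ (el h c) = 1 := by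
    intro i j h c
    induction c using Int.induction_on with
    | zero => rw [el_zero, map_one]
    | succ k ih => rw [el_add, map_mul, ih, h1, one_mul]
    | pred k ih =>
      rw [sub_eq_add_neg, el_add, map_mul, ih, one_mul]
      have h3 : σ (el h (-1 : ℤ)) * σ (el h (1 : ℤ)) = 1 := by
        rw [← map_mul, ← el_add, neg_add_cancel, el_zero, map_one]
      rwa [h1, mul_one] at h3
  have h3 : σ g = 1 := by
    have hg : g ∈ EE n ℤ := by rw [EE_eq_top]; trivial
    rw [EE] at hg
    induction hg using Subgroup.closure_induction with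
    | mem y hy =>
      obtain ⟨i, j, h, c, rfl⟩ := hy
      exact h2 i j h c
    | one => exact map_one σ
    | mul y z _ _ hy hz => rw [map_mul, hy, hz, one_mul]
    | inv y _ hy =>
      have h4 : σ y⁻¹ * σ y = 1 := by rw [← map_mul, inv_mul_cancel, map_one]
      rwa [hy, mul_one] at h4
  apply hΦ
  rw [map_one]
  exact h3

/-- representations over finite fields of groups with the finite quotients of `SL(n,ℤ)` -/
theorem fin_trivial {n : ℕ} (hn : 3 ≤ n) {L : Type} [Group L] (hL : SameFQ L (SLZ n))
    {K V : Type} [Field K] [Finite K] [AddCommGroup V] [Module K V]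
    [FiniteDimensional K V] (hd : finrank K V < n) (ρ : L →* End K V) (g : L) : ρ g = 1 := by
  have hVf : Finite V := Module.finite_of_finite K
  have hEf : Finite (End K V) := Finite.of_injective (fun f : End K V => (f : V → V))
    DFunLike.coe_injective
  let τ : L →* (End K V)ˣ := ρ.toHomUnits
  have : Finite (End K V)ˣ := inferInstance
  obtain ⟨f, hf⟩ := (hL τ.range).mp ⟨τ.rangeRestrict, τ.rangeRestrict_surjective⟩
  obtain ⟨y, hy⟩ := hf (τ.rangeRestrict g)
  have h1 := sl_trivial hn hd (((Units.coeHom (End K V)).comp (Subgroup.subtype τ.range)).comp f) y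
  have h2 : ((Units.coeHom (End K V)).comp (Subgroup.subtype τ.range)).comp f y = ρ g := by
    change ((f y : (End K V)ˣ) : End K V) = ρ g
    rw [hy]
    rfl
  rw [← h2, h1]

end Pool.Agent.Q315.LR
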