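import Pool.Agent.Q315.LR.All

/-! # Finite index -/

set_option autoImplicit false

namespace Pool.Agent.Q315.LR

open Function Matrix Pool.Agent.Q98.DF Pool.Agent.H185.ZM
open scoped commutatorElement

theorem finite_commutatorSet {G : Type} [Group G] (h : (Subgroup.center G).FiniteIndex) :
    Finite (commutatorSet G) := by
  have h1 : Finite (G ⧸ Subgroup.center G) := inferInstance
  let f : (G ⧸ Subgroup.center G) × (G ⧸ Subgroup.center G) → G := fun p => ⁅p.1.out, p.2.out⁆
  refine Set.Finite.subset (Set.finite_range f) ?_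
  rintro _ ⟨a, b, rfl⟩
  refine ⟨(QuotientGroup.mk a, QuotientGroup.mk b), ?_⟩
  obtain ⟨⟨u, hu⟩, hu1⟩ := QuotientGroup.mk_out_eq_mul (Subgroup.center G) a
  obtain ⟨⟨v, hv⟩, hv1⟩ := QuotientGroup.mk_out_eq_mul (Subgroup.center G) b
  change ⁅(QuotientGroup.mk a : G ⧸ Subgroup.center G).out,
    (QuotientGroup.mk b : G ⧸ Subgroup.center G).out⁆ = ⁅a, b⁆
  rw [hu1, hv1]
  exact comm_central (fun g => Subgroup.mem_center_iff.mp hu g)
    (fun g => Subgroup.mem_center_iff.mp hv g)

/-- **Finite index.** -/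
theorem fin_index {n : ℕ} (hn : 3 ≤ n) (q : ℕ) (hq : 0 < q) (N : Subgroup (SLZ n)) [hNn : N.Normal]
    (hN : Has (q : ℤ) N) : N.FiniteIndex := by
  have : NeZero q := ⟨hq.ne'⟩
  let π := QuotientGroup.mk' N
  have hle : (red n q).ker ≤ (Subgroup.center (SLZ n ⧸ N)).comap π := by
    intro g hg
    rw [Subgroup.mem_comap, Subgroup.mem_center_iff]
    have h1 := cen_all (N := N) hn q hq hN ⟨0, by omega⟩ _ g ((cong_iff q g).mpr hg) rfl
    rw [cen_iff] at h1
    intro x
    obtain ⟨y, rfl⟩ := QuotientGroup.mk'_surjective N x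
    exact (h1 y).symm
  have h1 : (red n q).ker.FiniteIndex := by
    have : Finite (Matrix.SpecialLinearGroup (Fin n) (ZMod q)) := inferInstance
    exact Subgroup.finiteIndex_ker _
  have h2 : ((Subgroup.center (SLZ n ⧸ N)).comap π).FiniteIndex :=
    Subgroup.finiteIndex_of_le hle
  have h3 : (Subgroup.center (SLZ n ⧸ N)).FiniteIndex := by
    refine ⟨?_⟩
    rw [← Subgroup.index_comap_of_surjective _ (QuotientGroup.mk'_surjective N)]
    exact h2.index_ne_zero
  have h4 := finite_commutatorSet h3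
  have h5 : Finite (commutator (SLZ n ⧸ N)) := inferInstance
  have h6 : commutator (SLZ n ⧸ N) = ⊤ := by
    rw [eq_top_iff]
    intro x _
    obtain ⟨y, rfl⟩ := QuotientGroup.mk'_surjective N x
    have hy : y ∈ commutator (SLZ n) := by rw [perf_SLZ hn]; trivial
    have h7 : (commutator (SLZ n)).map π ≤ commutator (SLZ n ⧸ N) := by
      rw [commutator_def, Subgroup.map_commutator, commutator_def]
      exact Subgroup.commutator_mono le_top le_top
    exact h7 ⟨y, hy, rfl⟩
  rw [h6] at h5
  have h8 : Finite (SLZ n ⧸ N) := Finite.of_equiv _ Subgroup.topEquiv.toEquiv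
  exact Subgroup.finiteIndex_of_finite_quotient

end Pool.Agent.Q315.LR
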