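import Pool.Agent.Q315.LR.IndM
import Pool.Agent.Q315.LR.Fx
import Pool.Agent.Q315.LR.Fld
import Pool.Agent.Q315.FE.Match

/-! # A uniform finite quotient for the representations of small dimension -/

set_option autoImplicit false

namespace Pool.Agent.Q315.LR

open Module Function Pool.Agent.Q98.DF Pool.Agent.H185.ZM Pool.Agent.Q279.PR Pool.Agent.Q315.FE

theorem el_pow {n : ℕ} {i j : Fin n} (h : i ≠ j) (a : ℤ) (m : ℕ) :
    el h a ^ m = el h ((m : ℤ) * a) := by
  induction m with
  | zero => rw [pow_zero, Nat.cast_zero, zero_mul, el_zero]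
  | succ m ih => rw [pow_succ, ih, ← el_add]; congr 1; push_cast; ring

theorem el_zpow {n : ℕ} {i j : Fin n} (h : i ≠ j) (a c : ℤ) : el h a ^ c = el h (a * c) := by
  obtain ⟨m, rfl | rfl⟩ := c.eq_nat_or_neg
  · rw [zpow_natCast, el_pow, mul_comm]
  · rw [zpow_neg, zpow_natCast, el_pow, el_inv]; congr 1; ring

theorem StM.powFam {ι K V : Type*} [Field K] [AddCommGroup V] [Module K V] {M : ℕ}
    {x : ι → ι → End K V} (hx : StM M x) (P : ℕ) : StM (M * P) (fun i j => x i j ^ P) := by
  refine ⟨?_, ?_, ?_⟩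
  · intro i j h
    have h1 : ∀ m : ℕ, Injective ((x i j ^ m : End K V) : V → V) := by
      intro m
      induction m with
      | zero => exact injective_id
      | succ m ih => rw [pow_succ]; exact ih.comp (hx.inj i j h)
    exact h1 P
  · intro i j k hij hjk hik
    have h1 := hx.rel_pow hij hjk hik P P
    rw [h1, ← pow_mul]
    congr 2
    ring
  · intro i j k l hij hkl hjk hil
    exact ((show Commute (x i j) (x k l) from hx.comm i j k l hij hkl hjk hil).pow_pow P P).eq

/-- scalar extension to the algebraic closure -/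
theorem exists_closure (K V : Type) [Field K] [AddCommGroup V] [Module K V]
    [FiniteDimensional K V] : ∃ (F : Type) (_ : Field F) (_ : IsAlgClosed F) (W : Type)
      (_ : AddCommGroup W) (_ : Module F W) (_ : FiniteDimensional F W) (Φ : End K V →* End F W),
      Injective Φ ∧ finrank F W = finrank K V := by
  classical
  let d := finrank K V
  let b : Basis (Fin d) K V := finBasis K V
  let F := AlgebraicClosure K
  let Φ : End K V →* End F (Fin d → F) :=
    ((Matrix.toLinAlgEquiv' : Matrix (Fin d) (Fin d) F ≃ₐ[F] _) :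
        Matrix (Fin d) (Fin d) F →* End F (Fin d → F)).comp
      (((algebraMap K F).mapMatrix : Matrix (Fin d) (Fin d) K →+* Matrix (Fin d) (Fin d) F) :
        Matrix (Fin d) (Fin d) K →* Matrix (Fin d) (Fin d) F) |>.comp
      ((LinearMap.toMatrixAlgEquiv b : End K V ≃ₐ[K] Matrix (Fin d) (Fin d) K) :
        End K V →* Matrix (Fin d) (Fin d) K)
  have hΦ : Injective Φ := by
    have h1 : Injective ((algebraMap K F).mapMatrix :
        Matrix (Fin d) (Fin d) K →+* Matrix (Fin d) (Fin d) F) := by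
      intro M N h
      ext i j
      have h2 := congrFun (congrFun h i) j
      exact (algebraMap K F).injective h2
    exact ((Matrix.toLinAlgEquiv' : Matrix (Fin d) (Fin d) F ≃ₐ[F] _).injective.comp h1).comp
      (LinearMap.toMatrixAlgEquiv b : End K V ≃ₐ[K] Matrix (Fin d) (Fin d) K).injective
  exact ⟨F, inferInstance, inferInstance, Fin d → F, inferInstance, inferInstance, inferInstance,
    Φ, hΦ, by rw [finrank_fin_fun]⟩

/-- **A uniform kernel** for the representations of dimension less than `n`. -/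
theorem uni_kernel {n : ℕ} (hn : 3 ≤ n) {F₀ : Type} [Group F₀] [Finite F₀] (q : SLZ n →* F₀) :
    ∃ D : Subgroup (SLZ n), D.Normal ∧ D.FiniteIndex ∧ D ≤ q.ker ∧
      ∀ (K V : Type) [Field K] [AddCommGroup V] [Module K V] [FiniteDimensional K V],
        finrank K V < n → ∀ θ : q.ker →* End K V, ∀ (g : SLZ n) (hg : g ∈ q.ker), g ∈ D →
          θ ⟨g, hg⟩ = 1 := by
  let N₀ := Nat.card F₀
  have hN₀ : 0 < N₀ := Nat.card_pos
  have hpow : ∀ x : SLZ n, q (x ^ N₀) = 1 := fun x => by rw [map_pow, pow_card_eq_one']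
  have hmem : ∀ {i j : Fin n} (h : i ≠ j) (c : ℤ), el h ((N₀ : ℤ) * c) ∈ q.ker := by
    intro i j h c
    rw [MonoidHom.mem_ker, ← el_pow]
    exact hpow _
  have hmem1 : ∀ {i j : Fin n} (h : i ≠ j), el h (N₀ : ℤ) ∈ q.ker := by
    intro i j h
    have := hmem h 1
    rwa [mul_one] at this
  let P := N₀ * N₀
  obtain ⟨e, he, hsm⟩ := small_tors n (by omega) (N₀ * P) (by positivity)
  let Q := P * e * N₀
  have hQ : 0 < Q := by positivity
  have hmemQ : ∀ {i j : Fin n} (h : i ≠ j) (c : ℤ), el h ((Q : ℤ) * c) ∈ q.ker := by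
    intro i j h c
    have h1 : (Q : ℤ) * c = (N₀ : ℤ) * ((P : ℤ) * e * c) := by
      simp only [Q]; push_cast; ring
    rw [h1]
    exact hmem h _
  -- the base case
  have base : ∀ (K V : Type) [Field K] [AddCommGroup V] [Module K V] [FiniteDimensional K V],
      finrank K V < n → ∀ (θ : q.ker →* End K V) (i j : Fin n) (h : i ≠ j) (c : ℤ),
        θ ⟨el h ((Q : ℤ) * c), hmemQ h c⟩ = 1 := by
    intro K V _ _ _ _ hd θ i j h c
    obtain ⟨F, _, _, W, _, _, _, Φ, hΦ, hW⟩ := exists_closure K V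
    apply hΦ
    rw [map_one]
    let σ : q.ker →* End F W := Φ.comp θ
    change σ ⟨el h ((Q : ℤ) * c), hmemQ h c⟩ = 1
    let x : Fin n → Fin n → End F W := fun i j =>
      if h : i ≠ j then σ ⟨el h (N₀ : ℤ), hmem1 h⟩ else 1
    have hxe : ∀ i j (h : i ≠ j), x i j = σ ⟨el h (N₀ : ℤ), hmem1 h⟩ := fun i j h => by
      simp only [x]
      rw [dif_pos h]
    have hx : StM N₀ x := by
      refine ⟨?_, ?_, ?_⟩
      · intro i j h u v huv
        rw [hxe i j h] at huv
        have h1 : σ (⟨el h (N₀ : ℤ), hmem1 h⟩ : q.ker)⁻¹ * σ ⟨el h (N₀ : ℤ), hmem1 h⟩ = 1 := by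
          rw [← map_mul, inv_mul_cancel, map_one]
        have h2 := congrArg (σ (⟨el h (N₀ : ℤ), hmem1 h⟩ : q.ker)⁻¹) huv
        rw [← Module.End.mul_apply, ← Module.End.mul_apply, h1] at h2
        exact h2
      · intro i j k hij hjk hik
        rw [hxe i j hij, hxe j k hjk, hxe i k hik, ← map_pow, ← map_mul, ← map_mul, ← map_mul]
        congr 1
        apply Subtype.ext
        change el hij (N₀ : ℤ) * el hjk (N₀ : ℤ) = el hik (N₀ : ℤ) ^ N₀ *
          (el hjk (N₀ : ℤ) * el hij (N₀ : ℤ))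
        rw [el_comm hij hjk hik, el_pow]
      · intro i j k l hij hkl hjk hil
        rw [hxe i j hij, hxe k l hkl, ← map_mul, ← map_mul]
        congr 1
        apply Subtype.ext
        exact el_commute hij hkl hjk hil _ _
    have hcard : Fintype.card (Fin n) = n := Fintype.card_fin n
    have h1 := hsm F (Fin n) W (fun i j => x i j ^ P) hcard (hx.powFam P)
      (fun i j hij => unipotent' hx (by rw [hcard]; exact hn) (by rw [hcard, hW]; exact hd) i j hij)
      (by rw [hW]; exact hd) i j h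
    change (x i j ^ P) ^ e = 1 at h1
    rw [← pow_mul, hxe i j h, ← map_pow] at h1
    let T : Subgroup (SLZ n) := (σ.ker).map q.ker.subtype
    have h2 : el h (Q : ℤ) ∈ T := by
      refine ⟨(⟨el h (N₀ : ℤ), hmem1 h⟩ : q.ker) ^ (P * e), h1, ?_⟩
      change el h (N₀ : ℤ) ^ (P * e) = _
      rw [el_pow]
      congr 1
    have h3 : el h ((Q : ℤ) * c) ∈ T := by
      rw [← el_zpow]
      exact T.zpow_mem h2 c
    obtain ⟨y, hy, hy2⟩ := h3
    have h4 : y = ⟨el h ((Q : ℤ) * c), hmemQ h c⟩ := Subtype.ext hy2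
    rw [← h4]
    exact hy
  let S : Set (SLZ n) := {g | ∃ (i j : Fin n) (h : i ≠ j) (c : ℤ), el h ((Q : ℤ) * c) = g}
  let D := Subgroup.normalClosure S
  have hHas : Has (Q : ℤ) D := fun i j h c => Subgroup.subset_normalClosure ⟨i, j, h, c, rfl⟩
  have hDq : D ≤ q.ker := by
    apply Subgroup.normalClosure_le_normal
    rintro _ ⟨i, j, h, c, rfl⟩
    exact hmemQ h c
  refine ⟨D, inferInstance, fin_index hn Q hQ D hHas, hDq, ?_⟩
  intro K V _ _ _ _ hd θ g hg hgD
  let T : Subgroup (SLZ n) := (θ.ker).map q.ker.subtype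
  have hle : D ≤ T := by
    change Subgroup.closure _ ≤ T
    rw [Subgroup.closure_le]
    intro y hy
    rw [Group.mem_conjugatesOfSet_iff] at hy
    obtain ⟨_, ⟨i, j, h, c, rfl⟩, hy2⟩ := hy
    rw [isConj_iff] at hy2
    obtain ⟨s, rfl⟩ := hy2
    let θs : q.ker →* End K V := θ.comp (MulAut.conjNormal s : MulAut q.ker).toMonoidHom
    have h1 := base K V hd θs i j h c
    refine ⟨MulAut.conjNormal s ⟨el h ((Q : ℤ) * c), hmemQ h c⟩, h1, ?_⟩
    exact MulAut.conjNormal_apply s _
  obtain ⟨y, hy, hy2⟩ := hle hgD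
  have h4 : y = ⟨g, hg⟩ := Subtype.ext hy2
  rw [← h4]
  exact hy

/-- **A uniform bound** for the representations over finite fields of the subgroups of finite index
of a group with the finite quotients of `SL(n,ℤ)`. -/
theorem fin_bound {n : ℕ} (hn : 3 ≤ n) {L : Type} [Group L] (hfg : Group.FG L)
    (hL : SameFQ L (SLZ n)) {F₀ : Type} [Group F₀] [Finite F₀] (p : L →* F₀) (hp : Surjective p) :
    ∃ B : ℕ, ∀ (K V : Type) [Field K] [Finite K] [AddCommGroup V] [Module K V]
      [FiniteDimensional K V], finrank K V < n → ∀ σ : p.ker →* End K V,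
        Nat.card σ.toHomUnits.range ≤ B := by
  obtain ⟨q, hq, hc⟩ := matching hfg (fg_SLZ n) (fun Q _ _ => (hL Q).symm) p hp
  have hs : SFQ q.ker p.ker := hc.sfq hfg (fg_SLZ n)
  obtain ⟨D, hD1, hD2, hD3, hD4⟩ := uni_kernel hn q
  refine ⟨D.index, ?_⟩
  intro K V _ _ _ _ _ hd σ
  have hVf : Finite V := Module.finite_of_finite K
  have hEf : Finite (End K V) := Finite.of_injective (fun f : End K V => (f : V → V))
    DFunLike.coe_injective
  let τ := σ.toHomUnits
  obtain ⟨f, hf⟩ := (hs τ.range).mpr ⟨τ.rangeRestrict, τ.rangeRestrict_surjective⟩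
  let θ : q.ker →* End K V := ((Units.coeHom (End K V)).comp (Subgroup.subtype τ.range)).comp f
  have h1 : D.subgroupOf q.ker ≤ f.ker := by
    rintro ⟨g, hg⟩ hgD
    have h2 := hD4 K V hd θ g hg hgD
    rw [MonoidHom.mem_ker]
    apply Subtype.ext
    apply Units.ext
    exact h2
  have h2 : f.ker.index = Nat.card τ.range := by
    rw [Subgroup.index_ker, MonoidHom.range_eq_top.mpr hf, Subgroup.card_top]
  rw [← h2]
  have h3 : f.ker.index ∣ (D.subgroupOf q.ker).index := Subgroup.index_dvd_of_le h1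
  have h4 : (D.subgroupOf q.ker).index ∣ D.index := Subgroup.relIndex_dvd_index_of_normal D q.ker
  exact Nat.le_of_dvd (Nat.pos_of_ne_zero hD2.index_ne_zero) (h3.trans h4)

end Pool.Agent.Q315.LR
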