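import Pool.Agent.Q98.DF.SLn

/-! # Normal subgroups of `SL(n,ℤ)` that contain powers of the elementary matrices have finite index -/

set_option autoImplicit false

namespace Pool.Agent.Q315.LR

open Function Matrix Pool.Agent.Q98.DF Pool.Agent.H185.ZM

variable {n : ℕ}

/-- `N` contains the elementary matrices that are trivial modulo `q` -/
def Has (q : ℤ) (N : Subgroup (SLZ n)) : Prop := ∀ (i j : Fin n) (h : i ≠ j) (c : ℤ), el h (q * c) ∈ N

/-- columns -/
theorem col_mem (q : ℤ) (N : Subgroup (SLZ n)) (hN : Has q N) (o : Fin n) (s : Finset (Fin n))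
    (hs : o ∉ s) (c : Fin n → ℤ) : ∃ u : SLZ n, (u : Matrix (Fin n) (Fin n) ℤ) =
      1 + ∑ k ∈ s, single k o (c k) ∧ ((∀ k ∈ s, q ∣ c k) → u ∈ N) := by
  classical
  induction s using Finset.induction_on with
  | empty => exact ⟨1, by simp, fun _ => one_mem _⟩
  | insert a s ha ih =>
    rw [Finset.mem_insert, not_or] at hs
    obtain ⟨u, hu, huN⟩ := ih hs.2
    have hao : a ≠ o := fun h => hs.1 h.symm
    refine ⟨el hao (c a) * u, ?_, ?_⟩
    · rw [Matrix.SpecialLinearGroup.coe_mul, el_coe, hu, Finset.sum_insert ha, add_mul, one_mul,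
        mul_add, mul_one, Finset.mul_sum]
      have h1 : ∑ k ∈ s, (single a o (c a) : Matrix (Fin n) (Fin n) ℤ) * single k o (c k) = 0 := by
        apply Finset.sum_eq_zero
        intro k hk
        apply Matrix.single_mul_single_of_ne
        rintro rfl
        exact hs.2 hk
      rw [h1, add_zero]
      abel
    · intro h
      refine N.mul_mem ?_ (huN fun k hk => h k (Finset.mem_insert_of_mem hk))
      obtain ⟨d, hd⟩ := h a (Finset.mem_insert_self _ _)
      rw [hd]
      exact hN a o hao d

/-- rows -/
theorem row_mem (q : ℤ) (N : Subgroup (SLZ n)) (hN : Has q N) (o : Fin n) (s : Finset (Fin n))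
    (hs : o ∉ s) (c : Fin n → ℤ) : ∃ u : SLZ n, (u : Matrix (Fin n) (Fin n) ℤ) =
      1 + ∑ k ∈ s, single o k (c k) ∧ ((∀ k ∈ s, q ∣ c k) → u ∈ N) := by
  classical
  induction s using Finset.induction_on with
  | empty => exact ⟨1, by simp, fun _ => one_mem _⟩
  | insert a s ha ih =>
    rw [Finset.mem_insert, not_or] at hs
    obtain ⟨u, hu, huN⟩ := ih hs.2
    have hao : o ≠ a := hs.1
    refine ⟨el hao (c a) * u, ?_, ?_⟩
    · rw [Matrix.SpecialLinearGroup.coe_mul, el_coe, hu, Finset.sum_insert ha, add_mul, one_mul,
        mul_add, mul_one, Finset.mul_sum]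
      have h1 : ∑ k ∈ s, (single o a (c a) : Matrix (Fin n) (Fin n) ℤ) * single o k (c k) = 0 := by
        apply Finset.sum_eq_zero
        intro k _
        exact Matrix.single_mul_single_of_ne _ _ _ _ (Ne.symm hao) _
      rw [h1, add_zero]
      abel
    · intro h
      refine N.mul_mem ?_ (huN fun k hk => h k (Finset.mem_insert_of_mem hk))
      obtain ⟨d, hd⟩ := h a (Finset.mem_insert_self _ _)
      rw [hd]
      exact hN o a hao d

/-- congruent to one modulo `q` -/
def Cong (q : ℤ) (g : SLZ n) : Prop := ∀ i j, q ∣ g.1 i j - (1 : Matrix (Fin n) (Fin n) ℤ) i j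

/-- the image in the quotient is central -/
def Cen (N : Subgroup (SLZ n)) (g : SLZ n) : Prop := ∀ x : SLZ n, (g * x)⁻¹ * (x * g) ∈ N

variable {N : Subgroup (SLZ n)} [hNn : N.Normal]

include hNn in
theorem cen_iff (g : SLZ n) : Cen N g ↔ ∀ x : SLZ n, (QuotientGroup.mk' N) g * (QuotientGroup.mk' N) x =
    (QuotientGroup.mk' N) x * (QuotientGroup.mk' N) g := by
  unfold Cen
  refine forall_congr' fun x => ?_
  rw [← map_mul, ← map_mul, QuotientGroup.mk'_apply, QuotientGroup.mk'_apply, QuotientGroup.eq]

include hNn in
theorem cen_mul_left {g h : SLZ n} (hh : h ∈ N) : Cen N (h * g) ↔ Cen N g := by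
  rw [cen_iff, cen_iff]
  have : (QuotientGroup.mk' N) h = 1 := by
    rwa [← MonoidHom.mem_ker, QuotientGroup.ker_mk']
  simp only [map_mul, this, one_mul]

include hNn in
theorem cen_mul_right {g h : SLZ n} (hh : h ∈ N) : Cen N (g * h) ↔ Cen N g := by
  rw [cen_iff, cen_iff]
  have : (QuotientGroup.mk' N) h = 1 := by
    rwa [← MonoidHom.mem_ker, QuotientGroup.ker_mk']
  simp only [map_mul, this, mul_one]

include hNn in
theorem cen_conj {g s : SLZ n} (h : Cen N (s * g * s⁻¹)) : Cen N g := by
  rw [cen_iff] at h ⊢
  intro x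
  have h1 := h (s * x * s⁻¹)
  rw [← map_mul, ← map_mul] at h1 ⊢
  have e1 : s * g * s⁻¹ * (s * x * s⁻¹) = s * (g * x) * s⁻¹ := by group
  have e2 : s * x * s⁻¹ * (s * g * s⁻¹) = s * (x * g) * s⁻¹ := by group
  rw [e1, e2, map_mul, map_mul, map_mul, map_mul] at h1
  exact mul_left_cancel (mul_right_cancel h1)

/-- **the block case**: last row and column trivial -/
theorem cen_block (q : ℤ) (hN : Has q N) (o : Fin n) (g : SLZ n) (hg : Cong q g)
    (hc : ∀ i, g.1 i o = if i = o then 1 else 0) (hr : ∀ i, g.1 o i = if i = o then 1 else 0) :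
    Cen N g := by
  classical
  rw [cen_iff]
  set π := QuotientGroup.mk' N with hπ
  have hπ1 : ∀ u ∈ N, π u = 1 := fun u hu => by
    rwa [hπ, ← MonoidHom.mem_ker, QuotientGroup.ker_mk']
  let s : Finset (Fin n) := Finset.univ.erase o
  have hs : o ∉ s := Finset.notMem_erase _ _
  have hsm : ∀ k, k ∈ s ↔ k ≠ o := fun k => by simp [s]
  -- columns
  have hcol : ∀ (i : Fin n) (h : i ≠ o) (a : ℤ), π g * π (el h a) = π (el h a) * π g := by
    intro i h a
    obtain ⟨u, hu, huN⟩ := col_mem q N hN o s hs
      (fun k => a * (g.1 k i - (1 : Matrix (Fin n) (Fin n) ℤ) k i))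
    have huN' := hπ1 u (huN fun k _ => Dvd.dvd.mul_left (hg k i) a)
    have key : g * el h a = u * (el h a * g) := by
      apply Subtype.ext
      rw [Matrix.SpecialLinearGroup.coe_mul, Matrix.SpecialLinearGroup.coe_mul,
        Matrix.SpecialLinearGroup.coe_mul, el_coe, hu]
      have e1 : ∀ x y, ((∑ k ∈ s, single k o (a * (g.1 k i -
          (1 : Matrix (Fin n) (Fin n) ℤ) k i)) : Matrix (Fin n) (Fin n) ℤ)) x y =
          if x ≠ o ∧ y = o then a * (g.1 x i - (1 : Matrix (Fin n) (Fin n) ℤ) x i) else 0 := by
        intro x y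
        rw [Matrix.sum_apply]
        by_cases hx : x = o
        · rw [if_neg (fun hh => hh.1 hx)]
          apply Finset.sum_eq_zero
          intro k hk
          rw [single_apply, if_neg]
          rintro ⟨rfl, -⟩
          exact (hsm k).mp hk hx
        · rw [Finset.sum_eq_single x]
          · rw [single_apply]
            by_cases hy : y = o
            · rw [if_pos ⟨rfl, hy.symm⟩, if_pos ⟨hx, hy⟩]
            · rw [if_neg (fun hh => hy hh.2.symm), if_neg (fun hh => hy hh.2)]
          · intro k _ hkx
            rw [single_apply, if_neg (fun hh => hkx hh.1)]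
          · intro hx'
            exact absurd ((hsm x).mpr hx) hx'
      ext x y
      rw [mul_add, mul_one, add_mul, one_mul, add_mul, one_mul, Matrix.add_apply, Matrix.add_apply,
        Matrix.mul_add, Matrix.add_apply, Matrix.add_apply]
      have e2 : (g.1 * single i o a) x y = if y = o then g.1 x i * a else 0 := by
        by_cases hy : y = o
        · subst hy; rw [Matrix.mul_single_apply_same, if_pos rfl]
        · rw [Matrix.mul_single_apply_of_ne _ _ _ _ _ hy, if_neg hy]
      have e3 : (single i o a * g.1) x y = if x = i ∧ y = o then a else 0 := by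
        by_cases hx : x = i
        · subst hx
          rw [Matrix.single_mul_apply_same, hr y]
          by_cases hy : y = o <;> simp [hy]
        · rw [Matrix.single_mul_apply_of_ne _ _ _ _ _ hx, if_neg (fun hh => hx hh.1)]
      have e4 : ((∑ k ∈ s, single k o (a * (g.1 k i -
          (1 : Matrix (Fin n) (Fin n) ℤ) k i)) : Matrix (Fin n) (Fin n) ℤ) * g.1) x y =
          if x ≠ o ∧ y = o then a * (g.1 x i - (1 : Matrix (Fin n) (Fin n) ℤ) x i) else 0 := by
        rw [Matrix.mul_apply, Finset.sum_eq_single o]
        · rw [e1, hr y]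
          by_cases hx : x = o <;> by_cases hy : y = o <;> simp [hx, hy]
        · intro b _ hb
          rw [e1, if_neg (fun hh => hb hh.2), zero_mul]
        · simp
      have e5 : ((∑ k ∈ s, single k o (a * (g.1 k i -
          (1 : Matrix (Fin n) (Fin n) ℤ) k i)) : Matrix (Fin n) (Fin n) ℤ) *
          (single i o a * g.1)) x y = 0 := by
        rw [Matrix.mul_apply]
        apply Finset.sum_eq_zero
        intro b _
        rw [e1]
        by_cases hb : b = o
        · have : (single i o a * g.1) b y = 0 := by
            rw [Matrix.single_mul_apply_of_ne _ _ _ _ _ (by rw [hb]; exact Ne.symm h)]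
          rw [this, mul_zero]
        · rw [if_neg (fun hh => hb hh.2), zero_mul]
      rw [e2, e3, e4, e5]
      by_cases hy : y = o
      · by_cases hx : x = o
        · have h1 : g.1 x i = 0 := by rw [hx, hr i, if_neg h]
          have h2 : ¬ x = i := by rw [hx]; exact Ne.symm h
          simp [hx, hy, Ne.symm h]
          rw [← hx, h1]
          exact Or.inl rfl
        · by_cases hxi : x = i
          · subst hxi
            simp [hy, hx]
            ring
          · rw [Matrix.one_apply_ne hxi]
            simp [hy, hx, hxi]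
            ring
      · simp [hy]
    rw [← map_mul, key, map_mul, huN', one_mul, map_mul]
  -- rows
  have hrow : ∀ (i : Fin n) (h : o ≠ i) (a : ℤ), π g * π (el h a) = π (el h a) * π g := by
    intro i h a
    obtain ⟨u, hu, huN⟩ := row_mem q N hN o s hs
      (fun k => a * (g.1 i k - (1 : Matrix (Fin n) (Fin n) ℤ) i k))
    have huN' := hπ1 u (huN fun k _ => Dvd.dvd.mul_left (hg i k) a)
    have key : el h a * g = g * el h a * u := by
      apply Subtype.ext
      rw [Matrix.SpecialLinearGroup.coe_mul, Matrix.SpecialLinearGroup.coe_mul,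
        Matrix.SpecialLinearGroup.coe_mul, el_coe, hu]
      have e1 : ∀ x y, ((∑ k ∈ s, single o k (a * (g.1 i k -
          (1 : Matrix (Fin n) (Fin n) ℤ) i k)) : Matrix (Fin n) (Fin n) ℤ)) x y =
          if y ≠ o ∧ x = o then a * (g.1 i y - (1 : Matrix (Fin n) (Fin n) ℤ) i y) else 0 := by
        intro x y
        rw [Matrix.sum_apply]
        by_cases hy : y = o
        · rw [if_neg (fun hh => hh.1 hy)]
          apply Finset.sum_eq_zero
          intro k hk
          rw [single_apply, if_neg]
          rintro ⟨-, rfl⟩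
          exact (hsm k).mp hk hy
        · rw [Finset.sum_eq_single y]
          · rw [single_apply]
            by_cases hx : x = o
            · rw [if_pos ⟨hx.symm, rfl⟩, if_pos ⟨hy, hx⟩]
            · rw [if_neg (fun hh => hx hh.1.symm), if_neg (fun hh => hx hh.2)]
          · intro k _ hky
            rw [single_apply, if_neg (fun hh => hky hh.2)]
          · intro hy'
            exact absurd ((hsm y).mpr hy) hy'
      ext x y
      rw [add_mul, one_mul, mul_add, mul_add, mul_one, mul_one, Matrix.add_apply,
        Matrix.add_apply, Matrix.add_mul, Matrix.add_apply, Matrix.add_apply]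
      have e2 : (single o i a * g.1) x y = if x = o then a * g.1 i y else 0 := by
        by_cases hx : x = o
        · subst hx; rw [Matrix.single_mul_apply_same, if_pos rfl]
        · rw [Matrix.single_mul_apply_of_ne _ _ _ _ _ hx, if_neg hx]
      have e3 : (g.1 * single o i a) x y = if y = i ∧ x = o then a else 0 := by
        by_cases hy : y = i
        · subst hy
          rw [Matrix.mul_single_apply_same, hc x]
          by_cases hx : x = o <;> simp [hx]
        · rw [Matrix.mul_single_apply_of_ne _ _ _ _ _ hy, if_neg (fun hh => hy hh.1)]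
      have e4 : (g.1 * (∑ k ∈ s, single o k (a * (g.1 i k -
          (1 : Matrix (Fin n) (Fin n) ℤ) i k)) : Matrix (Fin n) (Fin n) ℤ)) x y =
          if y ≠ o ∧ x = o then a * (g.1 i y - (1 : Matrix (Fin n) (Fin n) ℤ) i y) else 0 := by
        rw [Matrix.mul_apply, Finset.sum_eq_single o]
        · rw [e1, hc x]
          by_cases hx : x = o <;> by_cases hy : y = o <;> simp [hx, hy]
        · intro b _ hb
          rw [e1, if_neg (fun hh => hb hh.2), mul_zero]
        · simp
      have e5 : (g.1 * single o i a * (∑ k ∈ s, single o k (a * (g.1 i k -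
          (1 : Matrix (Fin n) (Fin n) ℤ) i k)) : Matrix (Fin n) (Fin n) ℤ)) x y = 0 := by
        rw [Matrix.mul_apply]
        apply Finset.sum_eq_zero
        intro b _
        rw [e1]
        by_cases hb : b = o
        · have : (g.1 * single o i a) x b = 0 := by
            rw [Matrix.mul_single_apply_of_ne _ _ _ _ _ (by rw [hb]; exact h)]
          rw [this, zero_mul]
        · rw [if_neg (fun hh => hb hh.2), mul_zero]
      rw [e2, e3, e4, e5]
      by_cases hx : x = o
      · by_cases hy : y = o
        · have h1 : g.1 i y = 0 := by rw [hy, hc i, if_neg (Ne.symm h)]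
          simp [hx, hy, h]
          rw [← hy, h1]
          exact Or.inr rfl
        · by_cases hyi : y = i
          · subst hyi
            simp [hy, hx]
            ring
          · rw [Matrix.one_apply_ne (Ne.symm hyi)]
            simp [hy, hx, hyi]
      · simp [hx]
    rw [← map_mul, ← map_mul, key, map_mul π (g * el h a) u, huN', mul_one]
  -- all elementary matrices
  have hall : ∀ (i j : Fin n) (h : i ≠ j) (a : ℤ), π g * π (el h a) = π (el h a) * π g := by
    intro i j h a
    by_cases hi : i = o
    · subst hi; exact hrow j h a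
    · by_cases hj : j = o
      · subst hj; exact hcol i h a
      · have h1 := el_comm_eq hi (Ne.symm hj) h a (1 : ℤ)
        rw [mul_one] at h1
        rw [← h1]
        have h2 : ∀ y, π g * π y = π y * π g → π g * π y⁻¹ = π y⁻¹ * π g := by
          intro y hy
          rw [map_inv]
          have : (π g) = π y * π g * (π y)⁻¹ := by rw [← hy]; group
          calc π g * (π y)⁻¹ = (π y)⁻¹ * (π y * π g * (π y)⁻¹) := by group
            _ = (π y)⁻¹ * π g := by rw [← this]
        have h3 : ∀ y z, π g * π y = π y * π g → π g * π z = π z * π g →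
            π g * π (y * z) = π (y * z) * π g := by
          intro y z hy hz
          rw [map_mul, ← mul_assoc, hy, mul_assoc, hz, mul_assoc]
        exact h3 _ _ (h3 _ _ (h3 _ _ (hcol i hi a) (hrow j (Ne.symm hj) 1)) (h2 _ (hcol i hi a)))
          (h2 _ (hrow j (Ne.symm hj) 1))
  intro x
  have hx : x ∈ EE n ℤ := by rw [EE_eq_top]; trivial
  rw [EE] at hx
  induction hx using Subgroup.closure_induction with
  | mem y hy =>
    obtain ⟨i, j, h, c, rfl⟩ := hy
    exact hall i j h c
  | one => rw [map_one, mul_one, one_mul]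
  | mul y z _ _ hy hz => rw [map_mul, ← mul_assoc, hy, mul_assoc, hz, mul_assoc]
  | inv y _ hy =>
    rw [map_inv]
    have : (π g) = π y * π g * (π y)⁻¹ := by rw [← hy]; group
    calc π g * (π y)⁻¹ = (π y)⁻¹ * (π y * π g * (π y)⁻¹) := by group
      _ = (π y)⁻¹ * π g := by rw [← this]

end Pool.Agent.Q315.LR
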