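import Pool.Agent.Q315.LR.Mod

/-! # Actions on modules over arbitrary rings and on residually nilpotent groups -/

set_option autoImplicit false

namespace Pool.Agent.Q315.LR

open Module Function Pool.Agent.Q98.DF
open scoped commutatorElement

/-- **Linear actions on modules with fewer than `n` generators are trivial.** -/
theorem mod_trivial {n : ℕ} (hn : 3 ≤ n) {L : Type} [Group L] (hfg : Group.FG L)
    (hL : SameFQ L (SLZ n)) {R A : Type} [CommRing R]
    [AddCommGroup A] [Module R A] (ρ : L →* End R A) {m : ℕ}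
    (hm : m < n) (e : Fin m → A) (he : Submodule.span R (Set.range e) = ⊤) (g : L) :
    ρ g = 1 := by
  have hp : commutator L = ⊤ := perfect_of_same hfg hL (perf_SLZ hn)
  obtain ⟨S, hS, hSf⟩ := Group.fg_iff.mp hfg
  have hcoef : ∀ (s : L) (j : Fin m), ∃ c : Fin m → R, ∑ i, c i • e i = ρ s (e j) := by
    intro s j
    have h1 : ρ s (e j) ∈ Submodule.span R (Set.range e) := by rw [he]; trivial
    exact (Submodule.mem_span_range_iff_exists_fun R).mp h1
  choose c hc using hcoef
  let T : Set R := (fun p : L × Fin m × Fin m => c p.1 p.2.1 p.2.2) '' ((S ∪ S⁻¹) ×ˢ Set.univ)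
  have hT : T.Finite := ((hSf.union hSf.inv).prod Set.finite_univ).image _
  let R₀ := Algebra.adjoin ℤ T
  have hft : Algebra.FiniteType ℤ R₀ :=
    (Subalgebra.fg_iff_finiteType R₀).mp (Subalgebra.fg_def.mpr ⟨T, hT, rfl⟩)
  let A₀ : Submodule R₀ A := Submodule.span R₀ (Set.range e)
  have hsm : ∀ (r : R₀) (a : A), r • a = (r : R) • a := fun r a => rfl
  have hst0 : ∀ s ∈ S ∪ S⁻¹, ∀ a ∈ A₀, ρ s a ∈ A₀ := by
    intro s hs a ha
    induction ha using Submodule.span_induction with
    | mem x hx =>
      obtain ⟨j, rfl⟩ := hx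
      rw [← hc s j]
      refine Submodule.sum_mem _ fun i _ => ?_
      have h1 : c s j i ∈ R₀ := Algebra.subset_adjoin ⟨(s, j, i), ⟨hs, trivial⟩, rfl⟩
      exact Submodule.smul_mem A₀ (⟨c s j i, h1⟩ : R₀) (Submodule.subset_span ⟨i, rfl⟩)
    | zero => rw [map_zero]; exact zero_mem _
    | add x y _ _ hx hy => rw [map_add]; exact add_mem hx hy
    | smul r x _ hx => rw [hsm, map_smul, ← hsm]; exact Submodule.smul_mem _ _ hx
  have hst : ∀ g : L, (∀ a ∈ A₀, ρ g a ∈ A₀) ∧ ∀ a ∈ A₀, ρ g⁻¹ a ∈ A₀ := by
    intro g
    have hg : g ∈ Subgroup.closure S := by rw [hS]; trivial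
    induction hg using Subgroup.closure_induction with
    | mem s hs =>
      exact ⟨hst0 s (Or.inl hs), hst0 s⁻¹ (Or.inr (by rwa [Set.mem_inv, inv_inv]))⟩
    | one => rw [inv_one, map_one]; exact ⟨fun a ha => ha, fun a ha => ha⟩
    | mul x y _ _ hx hy =>
      rw [mul_inv_rev, map_mul, map_mul]
      exact ⟨fun a ha => hx.1 _ (hy.1 a ha), fun a ha => hy.2 _ (hx.2 a ha)⟩
    | inv x _ hx => rw [inv_inv]; exact ⟨hx.2, hx.1⟩
  let ρ₀ : L →* End R₀ A₀ :=
    { toFun := fun g =>
        { toFun := fun a => ⟨ρ g a, (hst g).1 a a.2⟩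
          map_add' := fun a b => Subtype.ext (map_add (ρ g) _ _)
          map_smul' := fun r a => Subtype.ext (map_smul (ρ g) (r : R) (a : A)) }
      map_one' := by
        apply LinearMap.ext
        intro a
        apply Subtype.ext
        change ρ 1 (a : A) = a
        rw [map_one]
        rfl
      map_mul' := by
        intro g h
        apply LinearMap.ext
        intro a
        apply Subtype.ext
        change ρ (g * h) (a : A) = ρ g (ρ h a)
        rw [map_mul]
        rfl }
  let e₀ : Fin m → A₀ := fun i => ⟨e i, Submodule.subset_span ⟨i, rfl⟩⟩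
  have he₀ : Submodule.span R₀ (Set.range e₀) = ⊤ := by
    apply Submodule.map_injective_of_injective A₀.subtype_injective
    rw [Submodule.map_span, Submodule.map_top, Submodule.range_subtype, ← Set.range_comp]
    rfl
  have h1 := mod_trivial₀ hn hL hp ρ₀ hm e₀ he₀ g
  refine LinearMap.ext_on_range he fun i => ?_
  exact congrArg Subtype.val (DFunLike.congr_fun h1 (e₀ i))

/-- homomorphisms to `GL_m(R)` -/
theorem gl_trivial {n : ℕ} (hn : 3 ≤ n) {L : Type} [Group L] (hfg : Group.FG L)
    (hL : SameFQ L (SLZ n)) {R : Type} [CommRing R] {m : ℕ} (hm : m < n)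
    (φ : L →* GL (Fin m) R) (g : L) : φ g = 1 := by
  let ρ : L →* End R (Fin m → R) :=
    (((Matrix.toLinAlgEquiv' : Matrix (Fin m) (Fin m) R ≃ₐ[R] _) :
      Matrix (Fin m) (Fin m) R →* End R (Fin m → R)).comp
      (Units.coeHom (Matrix (Fin m) (Fin m) R))).comp φ
  have h1 := mod_trivial hn hfg hL ρ hm (Pi.basisFun R (Fin m)) (Pi.basisFun R (Fin m)).span_eq g
  apply Units.ext
  apply (Matrix.toLinAlgEquiv' : Matrix (Fin m) (Fin m) R ≃ₐ[R] _).injective
  rw [Units.val_one, map_one]
  exact h1

/-- the action on the abelianization -/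
noncomputable def abAct {L N : Type} [Group L] [Group N] (α : L →* MulAut N) :
    L →* End ℤ (Additive (Abelianization N)) where
  toFun g := (MonoidHom.toAdditive (Abelianization.map (α g).toMonoidHom)).toIntLinearMap
  map_one' := by
    apply LinearMap.ext
    intro a
    obtain ⟨y, hy⟩ := QuotientGroup.mk_surjective (Additive.toMul a)
    have : a = Additive.ofMul (Abelianization.of y) := hy.symm
    subst this
    change Additive.ofMul (Abelianization.map (α 1).toMonoidHom (Abelianization.of y)) = _
    rw [Abelianization.map_of, map_one]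
    rfl
  map_mul' := by
    intro g h
    apply LinearMap.ext
    intro a
    obtain ⟨y, hy⟩ := QuotientGroup.mk_surjective (Additive.toMul a)
    have : a = Additive.ofMul (Abelianization.of y) := hy.symm
    subst this
    change Additive.ofMul (Abelianization.map (α (g * h)).toMonoidHom (Abelianization.of y)) =
      Additive.ofMul (Abelianization.map (α g).toMonoidHom
        (Abelianization.map (α h).toMonoidHom (Abelianization.of y)))
    rw [Abelianization.map_of, Abelianization.map_of, Abelianization.map_of, map_mul]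
    rfl

theorem lcs_step {L N : Type} [Group L] [Group N] (hp : commutator L = ⊤) (α : L →* MulAut N)
    (k : ℕ) (h : ∀ g y, y⁻¹ * α g y ∈ Subgroup.lowerCentralSeries (⊤ : Subgroup N) (k + 1)) (g : L) (y : N) :
    y⁻¹ * α g y ∈ Subgroup.lowerCentralSeries (⊤ : Subgroup N) (k + 1 + 1) := by
  let Z := Subgroup.lowerCentralSeries (⊤ : Subgroup N) (k + 1 + 1)
  let π : N →* N ⧸ Z := QuotientGroup.mk' Z
  have hπ : ∀ z, π z = 1 ↔ z ∈ Z := fun z => by
    rw [← MonoidHom.mem_ker, QuotientGroup.ker_mk']
  have hcen : ∀ z ∈ Subgroup.lowerCentralSeries (⊤ : Subgroup N) (k + 1), ∀ w : N ⧸ Z, w * π z = π z * w := by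
    intro z hz w
    obtain ⟨v, rfl⟩ := QuotientGroup.mk'_surjective Z w
    change π v * π z = π z * π v
    have h1 : z * v * z⁻¹ * v⁻¹ ∈ Z := by
      change _ ∈ Subgroup.lowerCentralSeries (⊤ : Subgroup N) (k + 1 + 1)
      exact Subgroup.commutator_mem_commutator hz (Subgroup.mem_top v)
    have h2 := (hπ _).mpr h1
    rw [map_mul, map_mul, map_mul, map_inv, map_inv] at h2
    have h3 : π z * π v = π v * π z := by
      have := mul_inv_eq_one.mp h2
      rw [mul_inv_eq_iff_eq_mul] at this
      exact this
    exact h3.symm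
  have hfix : ∀ (g : L), ∀ z ∈ Subgroup.lowerCentralSeries (⊤ : Subgroup N) (k + 1), π (α g z) = π z := by
    intro g
    have hle : Subgroup.lowerCentralSeries (⊤ : Subgroup N) (k + 1) ≤
        MonoidHom.eqLocus (π.comp (α g).toMonoidHom) π := by
      change ⁅Subgroup.lowerCentralSeries (⊤ : Subgroup N) k, (⊤ : Subgroup N)⁆ ≤ _
      rw [Subgroup.commutator_le]
      intro a _ b _
      change π (α g ⁅a, b⁆) = π ⁅a, b⁆
      have ea : α g a = a * (a⁻¹ * α g a) := by group
      have eb : α g b = b * (b⁻¹ * α g b) := by group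
      rw [map_commutatorElement, map_commutatorElement, map_commutatorElement, ea, eb, map_mul,
        map_mul π b]
      exact comm_central (hcen _ (h g a)) (hcen _ (h g b))
    exact fun z hz => hle hz
  let c : L →* N ⧸ Z :=
    { toFun := fun g => π (y⁻¹ * α g y)
      map_one' := by rw [map_one, MulAut.one_apply, inv_mul_cancel, map_one]
      map_mul' := by
        intro g g'
        have h1 : y⁻¹ * α (g * g') y = y⁻¹ * α g y * α g (y⁻¹ * α g' y) := by
          rw [map_mul, MulAut.mul_apply, map_mul, map_inv]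
          group
        rw [h1, map_mul, hfix g _ (h g' y)] }
  have h1 := perf_trivial hp c (fun a b => (hcen _ (h b y) (c a))) g
  exact (hπ _).mp h1

/-- **Actions on residually nilpotent groups with fewer than `n` generators are trivial.** -/
theorem grp_trivial {n : ℕ} (hn : 3 ≤ n) {L : Type} [Group L] (hfg : Group.FG L)
    (hL : SameFQ L (SLZ n)) {N : Type} [Group N] {m : ℕ} (hm : m < n) (x : Fin m → N)
    (hx : Subgroup.closure (Set.range x) = ⊤)
    (hN : ∀ y : N, (∀ k, y ∈ Subgroup.lowerCentralSeries (⊤ : Subgroup N) k) → y = 1) (α : L →* MulAut N)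
    (g : L) : α g = 1 := by
  have hp : commutator L = ⊤ := perfect_of_same hfg hL (perf_SLZ hn)
  let e : Fin m → Additive (Abelianization N) := fun i => Additive.ofMul (Abelianization.of (x i))
  have he : Submodule.span ℤ (Set.range e) = ⊤ := by
    rw [eq_top_iff]
    intro a _
    obtain ⟨y, hy⟩ := QuotientGroup.mk_surjective (Additive.toMul a)
    have : a = Additive.ofMul (Abelianization.of y) := hy.symm
    subst this
    have hyc : y ∈ Subgroup.closure (Set.range x) := by rw [hx]; trivial
    clear hy
    induction hyc using Subgroup.closure_induction with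
    | mem z hz =>
      obtain ⟨i, rfl⟩ := hz
      exact Submodule.subset_span ⟨i, rfl⟩
    | one => rw [map_one, ofMul_one]; exact zero_mem _
    | mul u v _ _ hu hv =>
      rw [map_mul, ofMul_mul]
      exact add_mem (hu trivial) (hv trivial)
    | inv u _ hu => rw [map_inv, ofMul_inv]; exact neg_mem (hu trivial)
  have h1 : ∀ g y, y⁻¹ * α g y ∈ Subgroup.lowerCentralSeries (⊤ : Subgroup N) (0 + 1) := by
    intro g y
    have h2 := DFunLike.congr_fun (mod_trivial hn hfg hL (abAct α) hm e he g)
      (Additive.ofMul (Abelianization.of y))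
    have h3 : Abelianization.of (α g y) = Abelianization.of y := h2
    have h4 : (QuotientGroup.mk y : N ⧸ commutator N) = QuotientGroup.mk (α g y) := h3.symm
    rw [QuotientGroup.eq] at h4
    exact h4
  have h2 : ∀ k g y, y⁻¹ * α g y ∈ Subgroup.lowerCentralSeries (⊤ : Subgroup N) (k + 1) := by
    intro k
    induction k with
    | zero => exact h1
    | succ k ih => exact fun g y => lcs_step hp α k ih g y
  ext y
  rw [MulAut.one_apply]
  have h3 : y⁻¹ * α g y = 1 := by
    apply hN
    rintro (_ | k)
    · exact Subgroup.mem_top _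
    · exact h2 k g y
  exact (inv_mul_eq_one.mp h3).symm

end Pool.Agent.Q315.LR
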