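import Pool.Agent.Q315.LR.WtM

/-! # Representations of small dimension of Steinberg groups with an exponent -/

set_option autoImplicit false

namespace Pool.Agent.Q315.LR

open Module

theorem mono_rel {G : Type*} [Monoid G] {p q r : G} {M : ℕ} (h : p * q = r ^ M * (q * p))
    (hp : Commute r p) (hq : Commute r q) (a b : ℕ) :
    p ^ a * q ^ b = r ^ (M * a * b) * (q ^ b * p ^ a) := by
  have h1 : ∀ b : ℕ, p * q ^ b = r ^ (M * b) * (q ^ b * p) := by
    intro b
    induction b with
    | zero => simp
    | succ b ih =>
      have e1 : q ^ b * r ^ M = r ^ M * q ^ b := ((hq.pow_left M).pow_right b).symm.eq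
      calc p * q ^ (b + 1) = (p * q ^ b) * q := by rw [pow_succ, mul_assoc]
        _ = r ^ (M * b) * (q ^ b * (p * q)) := by rw [ih]; simp only [mul_assoc]
        _ = r ^ (M * b) * (q ^ b * r ^ M * (q * p)) := by rw [h]; simp only [mul_assoc]
        _ = r ^ (M * b) * r ^ M * (q ^ b * q * p) := by rw [e1]; simp only [mul_assoc]
        _ = r ^ (M * (b + 1)) * (q ^ (b + 1) * p) := by rw [← pow_add, ← pow_succ, mul_add, mul_one]
  induction a with
  | zero => simp
  | succ a ih =>
    have e1 : p * r ^ (M * a * b) = r ^ (M * a * b) * p := (hp.pow_left _).symm.eq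
    calc p ^ (a + 1) * q ^ b = p * (p ^ a * q ^ b) := by rw [pow_succ', mul_assoc]
      _ = p * r ^ (M * a * b) * (q ^ b * p ^ a) := by rw [ih]; exact (mul_assoc _ _ _).symm
      _ = r ^ (M * a * b) * ((p * q ^ b) * p ^ a) := by rw [e1]; simp only [mul_assoc]
      _ = r ^ (M * a * b) * r ^ (M * b) * (q ^ b * (p * p ^ a)) := by rw [h1]; simp only [mul_assoc]
      _ = r ^ (M * (a + 1) * b) * (q ^ b * p ^ (a + 1)) := by
        rw [← pow_add, ← pow_succ']
        congr 2
        ring

section One

variable {ι K V : Type*} [Field K] [AddCommGroup V] [Module K V] {M : ℕ} {x : ι → ι → End K V}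
  [FiniteDimensional K V]

theorem StM.surj (hx : StM M x) {i j : ι} (h : i ≠ j) : Function.Surjective (x i j) :=
  LinearMap.surjective_of_injective (hx.inj i j h)

omit [FiniteDimensional K V] in
theorem StM.rel_pow (hx : StM M x) {i j k : ι} (hij : i ≠ j) (hjk : j ≠ k) (hik : i ≠ k)
    (a b : ℕ) : x i j ^ a * x j k ^ b = x i k ^ (M * a * b) * (x j k ^ b * x i j ^ a) :=
  mono_rel (hx.rel i j k hij hjk hik) (hx.comm i k i j hik hij (Ne.symm hik) hij)
    (hx.comm i k j k hik hjk (Ne.symm hjk) hik) a b

theorem row_move' (hx : StM M x) {a b k : ι} {E : ℕ} (hab : a ≠ b) (hak : a ≠ k)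
    (h : x a b ^ E = 1) : x a k ^ (M * E) = 1 := by
  by_cases hbk : b = k
  · rw [← hbk, mul_comm, pow_mul, h, one_pow]
  · have h1 := hx.rel_pow hab hbk hak E 1
    rw [h, one_mul, pow_one, mul_one, mul_one] at h1
    exact cancel (hx.surj hbk) h1

theorem col_move' (hx : StM M x) {a b c : ι} {E : ℕ} (hab : a ≠ b) (hcb : c ≠ b)
    (h : x a b ^ E = 1) : x c b ^ (M * E) = 1 := by
  by_cases hca : c = a
  · rw [hca, mul_comm, pow_mul, h, one_pow]
  · have h1 := hx.rel_pow hca hab hcb 1 E
    rw [h, one_mul, pow_one, mul_one, mul_one] at h1
    exact cancel (hx.surj hca) h1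

theorem all_tors (hx : StM M x) [Fintype ι] (h3 : 3 ≤ Fintype.card ι) {a b : ι} (hab : a ≠ b)
    {E : ℕ} (h : x a b ^ E = 1) (i j : ι) (hij : i ≠ j) : x i j ^ (M * (M * (M * E))) = 1 := by
  classical
  by_cases hja : a = j
  · subst hja
    obtain ⟨c, hc⟩ : ∃ c, c ∉ ({a, b} : Finset ι) := by
      by_contra hcon
      push Not at hcon
      have h1 : (Finset.univ : Finset ι) ⊆ {a, b} := fun c _ => hcon c
      have h2 := Finset.card_le_card h1
      have h4 : ({a, b} : Finset ι).card ≤ 2 := Finset.card_le_two
      rw [Finset.card_univ] at h2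
      omega
    simp only [Finset.mem_insert, Finset.mem_singleton, not_or] at hc
    exact col_move' hx hc.1 hij (row_move' hx hc.2 hc.1 (col_move' hx hab hc.2 h))
  · have h1 := col_move' hx hja hij (row_move' hx hab hja h)
    rw [mul_comm, pow_mul, h1, one_pow]

end One

open Classical in
/-- **Representations of dimension less than the rank are torsion.** -/
theorem small_tors (n : ℕ) (hn : 2 ≤ n) (M : ℕ) (hM : 0 < M) :
    ∃ e : ℕ, 0 < e ∧ ∀ (K : Type) [Field K] [IsAlgClosed K] (ι : Type) [Fintype ι] (V : Type)
      [AddCommGroup V] [Module K V] [FiniteDimensional K V]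
      (x : ι → ι → End K V), Fintype.card ι = n → StM M x →
      (∀ i j, i ≠ j → IsNilpotent (x i j - 1)) → finrank K V < n →
      ∀ i j, i ≠ j → x i j ^ e = 1 := by
  induction n, hn using Nat.le_induction with
  | base =>
    refine ⟨1, one_pos, ?_⟩
    intro K _ _ ι _ V _ _ _ x _ _ hu hd i j hij
    rw [pow_one]
    have h1 := nil_finrank (hu i j hij)
    have h2 : x i j - 1 = 0 := by
      have h3 : finrank K V = 0 ∨ finrank K V = 1 := by omega
      rcases h3 with h3 | h3
      · rw [h3, pow_zero] at h1
        rw [← mul_one (x i j - 1), h1, mul_zero]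
      · rwa [h3, pow_one] at h1
    exact sub_eq_zero.mp h2
  | succ n hn ih =>
    obtain ⟨e₁, he₁, ih⟩ := ih
    refine ⟨M * (M * (M * (M * (M * e₁) * e₁))), by positivity, ?_⟩
    intro K _ _ ι _ V _ _ _ x hcard hx hu hd i j hij
    have h3 : 3 ≤ Fintype.card ι := by omega
    by_cases hV : Subsingleton V
    · ext v
      exact Subsingleton.elim _ _
    have hVn : Nontrivial V := not_subsingleton_iff_nontrivial.mp hV
    obtain ⟨o⟩ : Nonempty ι := ⟨i⟩
    let J := {j // j ≠ o}
    have hJ : Fintype.card J = n := by
      rw [Fintype.card_subtype_compl, Fintype.card_subtype_eq, hcard]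
      rfl
    let V₀ : Submodule K V := ⨅ a : J, LinearMap.ker (x o a - 1)
    have hV₀ : ∀ v, v ∈ V₀ ↔ ∀ a : J, x o a v = v := by
      intro v
      simp only [V₀, Submodule.mem_iInf, LinearMap.mem_ker, LinearMap.sub_apply,
        Module.End.one_apply, sub_eq_zero]
    have hne : V₀ ≠ ⊥ := by
      have hc : ∀ a b : J, x o a * x o b = x o b * x o a := fun a b =>
        hx.comm o a o b (Ne.symm a.2) (Ne.symm b.2) a.2 (Ne.symm b.2)
      obtain ⟨v, -, hv0, χ, hχ⟩ := joint (fun a : J => x o a) hc ⊤ top_ne_bot
        (fun _ _ _ => Submodule.mem_top)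
      rw [Submodule.ne_bot_iff]
      refine ⟨v, (hV₀ v).mpr fun a => ?_, hv0⟩
      have h1 := hχ a
      rw [unip_eig (hu o a (Ne.symm a.2)) hv0 h1, one_smul] at h1
      exact h1
    by_cases htop : V₀ = ⊤
    · -- the row acts trivially
      have h1 : ∀ a : J, x o a = 1 := by
        intro a
        ext v
        exact (hV₀ v).mp (htop ▸ Submodule.mem_top) a
      obtain ⟨a⟩ : Nonempty J := by
        rw [← Fintype.card_pos_iff]
        omega
      have h5 := all_tors hx h3 (Ne.symm a.2) (E := 1) (by rw [pow_one]; exact h1 a) i j hij
      have e1 : M * (M * (M * (M * (M * e₁) * e₁))) =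
          M * (M * (M * 1)) * (M * (M * e₁) * e₁) := by ring
      rw [e1, pow_mul, h5, one_pow]
    · have hd0 : finrank K V₀ < finrank K V := Submodule.finrank_lt htop
      have hd1 : 0 < finrank K V₀ := by
        rw [Module.finrank_pos_iff]
        exact Submodule.nontrivial_iff_ne_bot.mpr hne
      have hd2 : finrank K (V ⧸ V₀) + finrank K V₀ = finrank K V :=
        V₀.finrank_quotient_add_finrank
      -- the subspace is stable
      have hst : ∀ a b : J, a ≠ b → ∀ v ∈ V₀, x a b v ∈ V₀ := by
        intro a b hab v hv
        have hab' : (a : ι) ≠ b := fun h => hab (Subtype.ext h)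
        have hje : JE x o (fun _ => 1) v ∨ v = 0 := by
          by_cases h0 : v = 0
          · exact Or.inr h0
          · exact Or.inl ⟨h0, fun l => by rw [one_smul]; exact (hV₀ v).mp hv l⟩
        rcases hje with hje | rfl
        · rw [hV₀]
          intro l
          have h1 := (hje.opM hx hab).2 l
          rw [h1]
          have h2 : Function.update (fun _ : J => (1 : K)) a (1 * 1 ^ M) l = 1 := by
            by_cases hl : l = a
            · subst hl; simp
            · rw [Function.update_of_ne hl]
          rw [h2, one_smul]
        · rw [map_zero]; exact zero_mem _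
      -- the action on the subspace
      have hsub : ∀ a b : J, a ≠ b → ∀ v ∈ V₀, (x a b ^ e₁) v = v := by
        let y : J → J → End K V₀ := fun a b =>
          if h : a ≠ b then (x a b).restrict (hst a b h) else 1
        have hy : ∀ a b (_ : a ≠ b) (v : V₀), ((y a b v : V₀) : V) = x a b v := by
          intro a b h v
          simp only [y]
          rw [dif_pos h]
          rfl
        have hyp : ∀ a b (_ : a ≠ b) (m : ℕ) (v : V₀),
            ((((y a b) ^ m) v : V₀) : V) = (x a b ^ m) (v : V) := by
          intro a b h m
          induction m with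
          | zero => intro v; rfl
          | succ m ih' =>
            intro v
            rw [pow_succ, pow_succ, Module.End.mul_apply, Module.End.mul_apply, ih', hy a b h]
        have hySt : StM M y := by
          refine ⟨?_, ?_, ?_⟩
          · intro a b hab v w hvw
            have hab' : (a : ι) ≠ b := fun h => hab (Subtype.ext h)
            apply Subtype.ext
            apply hx.inj a b hab'
            rw [← hy a b hab, ← hy a b hab, hvw]
          · intro a b c hab hbc hac
            have hab' : (a : ι) ≠ b := fun h => hab (Subtype.ext h)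
            have hbc' : (b : ι) ≠ c := fun h => hbc (Subtype.ext h)
            have hac' : (a : ι) ≠ c := fun h => hac (Subtype.ext h)
            ext v
            simp only [Module.End.mul_apply]
            rw [hy a b hab, hy b c hbc, hyp a c hac, hy b c hbc, hy a b hab]
            exact DFunLike.congr_fun (hx.rel a b c hab' hbc' hac') (v : V)
          · intro a b c d hab hcd hbc had
            have hab' : (a : ι) ≠ b := fun h => hab (Subtype.ext h)
            have hcd' : (c : ι) ≠ d := fun h => hcd (Subtype.ext h)
            have hbc' : (b : ι) ≠ c := fun h => hbc (Subtype.ext h)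
            have had' : (a : ι) ≠ d := fun h => had (Subtype.ext h)
            ext v
            simp only [Module.End.mul_apply]
            rw [hy a b hab, hy c d hcd, hy c d hcd, hy a b hab]
            exact DFunLike.congr_fun (hx.comm a b c d hab' hcd' hbc' had') (v : V)
        have hyu : ∀ a b, a ≠ b → IsNilpotent (y a b - 1) := by
          intro a b hab
          have hab' : (a : ι) ≠ b := fun h => hab (Subtype.ext h)
          obtain ⟨k, hk⟩ := hu a b hab'
          refine ⟨k, ?_⟩
          have h1 : ∀ (m : ℕ) (v : V₀), ((((y a b - 1) ^ m) v : V₀) : V) =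
              ((x a b - 1) ^ m) (v : V) := by
            intro m
            induction m with
            | zero => intro v; simp
            | succ m ih' =>
              intro v
              rw [pow_succ, pow_succ, Module.End.mul_apply, Module.End.mul_apply, ih']
              congr 1
              rw [LinearMap.sub_apply, LinearMap.sub_apply, Submodule.coe_sub, hy a b hab]
              rfl
          ext v
          rw [h1, hk]
          rfl
        have h5 := ih K J V₀ y hJ hySt hyu (by omega)
        intro a b hab v hv
        have h6 := hyp a b hab e₁ ⟨v, hv⟩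
        rw [h5 a b hab] at h6
        exact h6.symm
      -- the action on the quotient
      have hquo : ∀ a b : J, a ≠ b → ∀ v : V, (x a b ^ e₁) v - v ∈ V₀ := by
        let z : J → J → End K (V ⧸ V₀) := fun a b =>
          if h : a ≠ b then V₀.mapQ V₀ (x a b) (hst a b h) else 1
        have hz : ∀ a b (_ : a ≠ b) (v : V), z a b (Submodule.Quotient.mk v) =
            Submodule.Quotient.mk (x a b v) := by
          intro a b h v
          simp only [z]
          rw [dif_pos h, Submodule.mapQ_apply]
        have hzp : ∀ a b (_ : a ≠ b) (m : ℕ) (v : V), ((z a b) ^ m) (Submodule.Quotient.mk v) =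
            Submodule.Quotient.mk ((x a b ^ m) v) := by
          intro a b h m
          induction m with
          | zero => intro v; rfl
          | succ m ih' =>
            intro v
            rw [pow_succ, pow_succ, Module.End.mul_apply, Module.End.mul_apply, hz a b h, ih']
        have hzSt : StM M z := by
          refine ⟨?_, ?_, ?_⟩
          · intro a b hab
            have hab' : (a : ι) ≠ b := fun h => hab (Subtype.ext h)
            apply LinearMap.injective_iff_surjective.mpr
            intro w
            obtain ⟨w, rfl⟩ := Submodule.Quotient.mk_surjective _ w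
            obtain ⟨v, rfl⟩ := hx.surj hab' w
            exact ⟨Submodule.Quotient.mk v, hz a b hab v⟩
          · intro a b c hab hbc hac
            have hab' : (a : ι) ≠ b := fun h => hab (Subtype.ext h)
            have hbc' : (b : ι) ≠ c := fun h => hbc (Subtype.ext h)
            have hac' : (a : ι) ≠ c := fun h => hac (Subtype.ext h)
            apply LinearMap.ext
            intro w
            obtain ⟨v, rfl⟩ := Submodule.Quotient.mk_surjective _ w
            simp only [Module.End.mul_apply]
            rw [hz b c hbc, hz a b hab, hz a b hab, hz b c hbc, hzp a c hac]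
            exact congrArg _ (DFunLike.congr_fun (hx.rel a b c hab' hbc' hac') v)
          · intro a b c d hab hcd hbc had
            have hab' : (a : ι) ≠ b := fun h => hab (Subtype.ext h)
            have hcd' : (c : ι) ≠ d := fun h => hcd (Subtype.ext h)
            have hbc' : (b : ι) ≠ c := fun h => hbc (Subtype.ext h)
            have had' : (a : ι) ≠ d := fun h => had (Subtype.ext h)
            apply LinearMap.ext
            intro w
            obtain ⟨v, rfl⟩ := Submodule.Quotient.mk_surjective _ w
            simp only [Module.End.mul_apply]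
            rw [hz c d hcd, hz a b hab, hz a b hab, hz c d hcd]
            exact congrArg _ (DFunLike.congr_fun (hx.comm a b c d hab' hcd' hbc' had') v)
        have hzu : ∀ a b, a ≠ b → IsNilpotent (z a b - 1) := by
          intro a b hab
          have hab' : (a : ι) ≠ b := fun h => hab (Subtype.ext h)
          obtain ⟨k, hk⟩ := hu a b hab'
          refine ⟨k, ?_⟩
          have h1 : ∀ (m : ℕ) (v : V), ((z a b - 1) ^ m) (Submodule.Quotient.mk v) =
              Submodule.Quotient.mk (((x a b - 1) ^ m) v) := by
            intro m
            induction m with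
            | zero => intro v; rfl
            | succ m ih' =>
              intro v
              rw [pow_succ, pow_succ, Module.End.mul_apply, Module.End.mul_apply, ← ih']
              congr 1
              rw [LinearMap.sub_apply, LinearMap.sub_apply, Submodule.Quotient.mk_sub,
                hz a b hab]
              rfl
          apply LinearMap.ext
          intro w
          obtain ⟨v, rfl⟩ := Submodule.Quotient.mk_surjective _ w
          rw [h1, hk]
          rfl
        have h5 := ih K J (V ⧸ V₀) z hJ hzSt hzu (by omega)
        intro a b hab v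
        have h6 := hzp a b hab e₁ v
        rw [h5 a b hab, Module.End.one_apply] at h6
        rw [← Submodule.Quotient.eq]
        exact h6.symm
      -- two further indices
      obtain ⟨a, b, hab⟩ : ∃ a b : J, a ≠ b := by
        have : Nontrivial J := by
          rw [← Fintype.one_lt_card_iff_nontrivial]
          omega
        exact exists_pair_ne J
      have hab' : (a : ι) ≠ b := fun h => hab (Subtype.ext h)
      have hfix : ∀ c : J, ∀ v ∈ V₀, x o c v = v := fun c v hv => (hV₀ v).mp hv c
      have hfixp : ∀ c : J, ∀ m : ℕ, ∀ v ∈ V₀, (x o c ^ m) v = v := by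
        intro c m v hv
        have h1 := pow_eig (f := x o c) (c := (1 : K)) (v := v) (by rw [one_smul]; exact hfix c v hv) m
        rwa [one_pow, one_smul] at h1
      have hsurjp : ∀ {i j : ι}, i ≠ j → ∀ m : ℕ, Function.Surjective (x i j ^ m) := by
        intro i j h m
        induction m with
        | zero => intro v; exact ⟨v, rfl⟩
        | succ m ih' =>
          intro v
          obtain ⟨w, rfl⟩ := ih' v
          obtain ⟨u, rfl⟩ := hx.surj h w
          exact ⟨u, by rw [pow_succ, Module.End.mul_apply]⟩
      -- rows act trivially on the quotient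
      have hrow : ∀ c d : J, c ≠ d → ∀ u : V, (x o d ^ (M * e₁)) u - u ∈ V₀ := by
        intro c d hcd u
        have hcd' : (c : ι) ≠ d := fun h => hcd (Subtype.ext h)
        obtain ⟨w, rfl⟩ := hsurjp hcd' e₁ u
        obtain ⟨v, rfl⟩ := hx.surj (Ne.symm c.2) w
        have h1 := DFunLike.congr_fun (hx.rel_pow (Ne.symm c.2) hcd' (Ne.symm d.2) 1 e₁) v
        rw [mul_one, pow_one] at h1
        simp only [Module.End.mul_apply] at h1
        have h2 := hquo c d hcd v
        have h4 := hquo c d hcd (x o c v)
        have h5 : x o c ((x c d ^ e₁) v) = x o c v + ((x c d ^ e₁) v - v) := by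
          have h6 : x o c ((x c d ^ e₁) v - v) = (x c d ^ e₁) v - v := hfix c _ h2
          rw [map_sub] at h6
          rw [← h6]
          abel
        have h7 : (x o d ^ (M * e₁)) ((x c d ^ e₁) (x o c v)) - (x c d ^ e₁) (x o c v) =
            ((x c d ^ e₁) v - v) - ((x c d ^ e₁) (x o c v) - x o c v) := by
          rw [← h1, h5]
          abel
        rw [h7]
        exact sub_mem h2 h4
      have h6 : x o b ^ (M * (M * e₁) * e₁) = 1 := by
        have hrel := hx.rel_pow (Ne.symm a.2) hab' (Ne.symm b.2) (M * e₁) e₁
        ext u
        obtain ⟨w, rfl⟩ := hsurjp hab' e₁ u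
        obtain ⟨v, rfl⟩ := hsurjp (Ne.symm a.2) (M * e₁) w
        have h1 := DFunLike.congr_fun hrel v
        simp only [Module.End.mul_apply] at h1
        have h2 : (x o a ^ (M * e₁)) ((x a b ^ e₁) v) =
            (x o a ^ (M * e₁)) v + ((x a b ^ e₁) v - v) := by
          have h6 : (x o a ^ (M * e₁)) ((x a b ^ e₁) v - v) = (x a b ^ e₁) v - v :=
            hfixp a _ _ (hquo a b hab v)
          rw [map_sub] at h6
          rw [← h6]
          abel
        have h4 : (x a b ^ e₁) ((x o a ^ (M * e₁)) v) =
            (x a b ^ e₁) v + ((x o a ^ (M * e₁)) v - v) := by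
          have h6 : (x a b ^ e₁) ((x o a ^ (M * e₁)) v - v) = (x o a ^ (M * e₁)) v - v :=
            hsub a b hab _ (hrow b a (Ne.symm hab) v)
          rw [map_sub] at h6
          rw [← h6]
          abel
        have h5 : (x o a ^ (M * e₁)) ((x a b ^ e₁) v) = (x a b ^ e₁) ((x o a ^ (M * e₁)) v) := by
          rw [h2, h4]
          abel
        rw [← h1, h5]
        rfl
      exact all_tors hx h3 (Ne.symm b.2) h6 i j hij

end Pool.Agent.Q315.LR
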