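import Pool.Agent.Q315.LR.Grp
import Pool.Agent.Helper189.FreeRep

/-! # Representations of dimension `n` are trivial or irreducible -/

set_option autoImplicit false

namespace Pool.Agent.Q315.LR

open Module Function Pool.Agent.Q98.DF

theorem irr {n : ℕ} (hn : 3 ≤ n) {L : Type} [Group L] (hfg : Group.FG L)
    (hL : SameFQ L (SLZ n)) {K V : Type} [Field K] [AddCommGroup V] [Module K V]
    [FiniteDimensional K V] (hd : finrank K V ≤ n) (ρ : L →* End K V) (W : Submodule K V)
    (hW : ∀ g, ∀ w ∈ W, ρ g w ∈ W) (h0 : W ≠ ⊥) (h1 : W ≠ ⊤) : ρ = 1 := by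
  have hp : commutator L = ⊤ := perfect_of_same hfg hL (perf_SLZ hn)
  have hd1 : finrank K W < n := (Submodule.finrank_lt h1).trans_le hd
  have hd2 : finrank K (V ⧸ W) < n := by
    have h2 : finrank K (V ⧸ W) + finrank K W = finrank K V := W.finrank_quotient_add_finrank
    have h3 : 0 < finrank K W := by
      rw [Module.finrank_pos_iff]
      exact Submodule.nontrivial_iff_ne_bot.mpr h0
    omega
  let ρ₁ : L →* End K W :=
    { toFun := fun g => (ρ g).restrict (hW g)
      map_one' := by
        apply LinearMap.ext
        intro w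
        apply Subtype.ext
        change ρ 1 (w : V) = w
        rw [map_one]
        rfl
      map_mul' := by
        intro g h
        apply LinearMap.ext
        intro w
        apply Subtype.ext
        change ρ (g * h) (w : V) = ρ g (ρ h w)
        rw [map_mul]
        rfl }
  have hQ : ∀ (g : L) (a : V), W.mapQ W (ρ g) (hW g) (Submodule.Quotient.mk a) =
      Submodule.Quotient.mk (ρ g a) := fun f a => Submodule.mapQ_apply _ _ _ _
  let ρ₂ : L →* End K (V ⧸ W) :=
    { toFun := fun g => W.mapQ W (ρ g) (hW g)
      map_one' := by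
        apply LinearMap.ext
        intro b
        obtain ⟨a, rfl⟩ := Submodule.Quotient.mk_surjective _ b
        rw [hQ, map_one]
        rfl
      map_mul' := by
        intro g h
        apply LinearMap.ext
        intro b
        obtain ⟨a, rfl⟩ := Submodule.Quotient.mk_surjective _ b
        rw [Module.End.mul_apply, hQ, hQ, hQ, map_mul]
        rfl }
  have t1 : ∀ g, ∀ w ∈ W, ρ g w = w := by
    intro g w hw
    have h2 := mod_trivial hn hfg hL ρ₁ hd1 (finBasis K W) (finBasis K W).span_eq g
    exact congrArg Subtype.val (DFunLike.congr_fun h2 ⟨w, hw⟩)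
  have t2 : ∀ g v, ρ g v - v ∈ W := by
    intro g v
    have h2 := mod_trivial hn hfg hL ρ₂ hd2 (finBasis K (V ⧸ W)) (finBasis K (V ⧸ W)).span_eq g
    have h3 := DFunLike.congr_fun h2 (Submodule.Quotient.mk v)
    change W.mapQ W (ρ g) (hW g) (Submodule.Quotient.mk v) = Submodule.Quotient.mk v at h3
    rw [hQ, Submodule.Quotient.eq] at h3
    exact h3
  apply MonoidHom.ext
  intro g
  apply LinearMap.ext
  intro v
  let c : L →* Multiplicative V :=
    { toFun := fun g => Multiplicative.ofAdd (ρ g v - v)
      map_one' := by
        rw [map_one, Module.End.one_apply, sub_self]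
        rfl
      map_mul' := by
        intro g h
        rw [← ofAdd_add]
        congr 1
        have h2 := t1 g _ (t2 h v)
        rw [map_sub] at h2
        rw [map_mul, Module.End.mul_apply, ← h2]
        abel }
  have h2 := perf_trivial hp c (fun _ _ => mul_comm _ _) g
  have h3 : ρ g v - v = 0 := h2
  exact sub_eq_zero.mp h3

end Pool.Agent.Q315.LR
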