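import Pool.Agent.Q315.LR.Bnd
import Pool.Agent.H698R4.Malcev

/-! # Representations over reduced rings -/

set_option autoImplicit false

namespace Pool.Agent.Q315.LR

open Module Function Pool.Agent.Q98.DF Pool.Agent.H185.ZM Pool.Agent.Q279.PR Pool.Agent.Q315.FE
open Pool.Agent.H698R4

/-- Malcev: a nontrivial element of a finitely generated linear group over a reduced ring survives
over a finite field in the same dimension. -/
theorem malcev_red {G : Type} [Group G] (hG : Group.FG G) {m : ℕ} {K : Type} [CommRing K]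
    [IsReduced K] (ψ : G →* Matrix (Fin m) (Fin m) K) (g : G) (hg : ψ g ≠ 1) :
    ∃ (k : Type) (_ : Field k) (_ : Finite k) (σ : G →* Matrix (Fin m) (Fin m) k), σ g ≠ 1 ∧
      ∀ p : ℕ, (p : K) = 0 → (p : k) = 0 := by
  classical
  obtain ⟨S, hS, hSf⟩ := Group.fg_iff.mp hG
  let T : Set K := (fun p : G × (Fin m × Fin m) => ψ p.1 p.2.1 p.2.2) ''
    ((S ∪ S⁻¹) ×ˢ Set.univ)
  have hT : T.Finite := ((hSf.union hSf.inv).prod Set.finite_univ).image _
  let A := Algebra.adjoin ℤ T
  have hfg : A.FG := Subalgebra.fg_def.mpr ⟨T, hT, rfl⟩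
  have hft : Algebra.FiniteType ℤ A := (Subalgebra.fg_iff_finiteType A).mp hfg
  have hred : IsReduced A :=
    isReduced_of_injective A.val Subtype.val_injective
  have hent : ∀ x : G, (∀ a b, ψ x a b ∈ A) ∧ (∀ a b, ψ x⁻¹ a b ∈ A) := by
    intro x
    have hx : x ∈ Subgroup.closure S := by rw [hS]; trivial
    induction hx using Subgroup.closure_induction with
    | mem x hx =>
      exact ⟨fun a b => Algebra.subset_adjoin ⟨(x, (a, b)), ⟨Or.inl hx, trivial⟩, rfl⟩,
        fun a b => Algebra.subset_adjoin ⟨(x⁻¹, (a, b)),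
          ⟨Or.inr (by rwa [Set.mem_inv, inv_inv]), trivial⟩, rfl⟩⟩
    | one =>
      have h1 : ∀ a b, (1 : Matrix (Fin m) (Fin m) K) a b ∈ A := by
        intro a b
        rw [Matrix.one_apply]
        split_ifs
        · exact A.one_mem
        · exact A.zero_mem
      rw [inv_one, map_one]
      exact ⟨h1, h1⟩
    | mul x y _ _ hx hy =>
      rw [mul_inv_rev, map_mul, map_mul]
      refine ⟨fun a b => ?_, fun a b => ?_⟩
      · rw [Matrix.mul_apply]
        exact A.sum_mem fun c _ => A.mul_mem (hx.1 a c) (hy.1 c b)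
      · rw [Matrix.mul_apply]
        exact A.sum_mem fun c _ => A.mul_mem (hy.2 a c) (hx.2 c b)
    | inv x _ hx =>
      rw [inv_inv]
      exact ⟨hx.2, hx.1⟩
  let M : G →* Matrix (Fin m) (Fin m) A :=
    { toFun := fun x => Matrix.of fun a b => ⟨ψ x a b, (hent x).1 a b⟩
      map_one' := by
        ext a b
        show ψ 1 a b = (((1 : Matrix (Fin m) (Fin m) A) a b : A) : K)
        rw [map_one, Matrix.one_apply, Matrix.one_apply]
        split_ifs <;> simp
      map_mul' := fun x y => by
        ext a b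
        show ψ (x * y) a b = _
        rw [map_mul, Matrix.mul_apply, Matrix.mul_apply]
        simp }
  have hM : ∀ x a b, ((M x a b : A) : K) = ψ x a b := fun _ _ _ => rfl
  have hne : ∃ a b, M g a b ≠ (1 : Matrix (Fin m) (Fin m) A) a b := by
    by_contra hcon
    push Not at hcon
    apply hg
    ext a b
    rw [← hM, hcon, Matrix.one_apply, Matrix.one_apply]
    split_ifs <;> simp
  obtain ⟨a, b, hab⟩ := hne
  set t : A := M g a b - (1 : Matrix (Fin m) (Fin m) A) a b with ht
  have ht0 : t ≠ 0 := sub_ne_zero.mpr hab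
  have := jacobson_int
  have hJ : IsJacobsonRing A := isJacobsonRing_of_finiteType (A := ℤ)
  have hjac : (⊥ : Ideal A).jacobson = ⊥ := hJ.out Ideal.isRadical_bot
  have hmax : ∃ P : Ideal A, P.IsMaximal ∧ t ∉ P := by
    by_contra hcon
    push Not at hcon
    have : t ∈ (⊥ : Ideal A).jacobson := by
      rw [Ideal.jacobson, Ideal.mem_sInf]
      rintro P ⟨-, hP⟩
      exact hcon P hP
    rw [hjac, Ideal.mem_bot] at this
    exact ht0 this
  obtain ⟨P, hP, htP⟩ := hmax
  let k := A ⧸ P
  have hKft : Algebra.FiniteType ℤ k :=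
    Algebra.FiniteType.of_surjective (Ideal.Quotient.mkₐ ℤ P) (Ideal.Quotient.mkₐ_surjective ℤ P)
  have hK : Finite k := finite_field_of_finiteType k
    ((Ideal.Quotient.maximal_ideal_iff_isField_quotient P).mp hP)
  let R : G →* Matrix (Fin m) (Fin m) k := (Ideal.Quotient.mk P).mapMatrix.toMonoidHom.comp M
  refine ⟨k, Ideal.Quotient.field P, hK, R, fun h1 => ?_, fun p hp => ?_⟩
  swap
  · have h1 : (p : A) = 0 := by
      apply Subtype.ext
      have h3 : ((p : A) : K) = (p : K) := map_natCast A.val p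
      rw [h3, hp]
      rfl
    have h2 : (Ideal.Quotient.mk P) (p : A) = 0 := by rw [h1, map_zero]
    rw [map_natCast] at h2
    exact h2
  have h2 : Ideal.Quotient.mk P (M g a b) = (1 : Matrix (Fin m) (Fin m) k) a b :=
    congrFun (congrFun h1 a) b
  have h3 : Ideal.Quotient.mk P ((1 : Matrix (Fin m) (Fin m) A) a b) =
      (1 : Matrix (Fin m) (Fin m) k) a b := by
    rw [Matrix.one_apply, Matrix.one_apply]
    split_ifs <;> simp
  apply htP
  rw [← Ideal.Quotient.eq_zero_iff_mem, ht, map_sub, h2, h3, sub_self]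

/-- a finitely generated group has a subgroup of finite index in the kernels of all homomorphisms
with image of order at most `B` -/
theorem exists_big {G : Type} [Group G] (hG : Group.FG G) (B : ℕ) :
    ∃ H : Subgroup G, H.FiniteIndex ∧ ∀ (Q : Type) [Group Q] [Finite Q] (f : G →* Q),
      Nat.card f.range ≤ B → H ≤ f.ker := by
  have hfin := Pool.Agent.Q279.PR.finite_hom hG (Equiv.Perm (Fin B))
  let ev : G →* ((G →* Equiv.Perm (Fin B)) → Equiv.Perm (Fin B)) := MonoidHom.pi fun φ => φ
  refine ⟨ev.ker, Subgroup.finiteIndex_ker ev, ?_⟩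
  intro Q _ _ f hf x hx
  have h1 : Nonempty (f.range ↪ Fin B) := by
    have : Fintype f.range := Fintype.ofFinite _
    rw [Function.Embedding.nonempty_iff_card_le, Fintype.card_fin, ← Nat.card_eq_fintype_card]
    exact hf
  obtain ⟨ι⟩ := h1
  let c : f.range →* Equiv.Perm (Fin B) :=
    (Equiv.Perm.viaEmbeddingHom ι).comp (MulAction.toPermHom f.range f.range)
  have hc : Injective c :=
    (Equiv.Perm.viaEmbeddingHom_injective ι).comp MulAction.toPerm_injective
  have h2 : ev x = 1 := hx
  have h3 : (c.comp f.rangeRestrict) x = 1 := congrFun h2 (c.comp f.rangeRestrict)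
  have h4 : f.rangeRestrict x = 1 := hc (h3.trans (map_one c).symm)
  exact congrArg Subtype.val h4

/-- **Finite images, normal subgroups.** -/
theorem normal_finite {n : ℕ} (hn : 3 ≤ n) {L : Type} [Group L] (hfg : Group.FG L)
    (hL : SameFQ L (SLZ n)) {F₀ : Type} [Group F₀] [Finite F₀] (p : L →* F₀) (hp : Surjective p)
    {m : ℕ} (hm : m < n) {R : Type} [CommRing R] [IsReduced R] (φ : p.ker →* GL (Fin m) R) :
    Finite φ.range := by
  obtain ⟨B, hB⟩ := fin_bound hn hfg hL p hp
  have hk := fg_ker hfg p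
  obtain ⟨H, hH, hH2⟩ := exists_big hk B
  have hle : H ≤ φ.ker := by
    intro g hg
    rw [MonoidHom.mem_ker]
    by_contra hne
    let ψ : p.ker →* Matrix (Fin m) (Fin m) R := (Units.coeHom _).comp φ
    have hψ : ψ g ≠ 1 := fun h => hne (Units.ext h)
    obtain ⟨k, _, _, σ, hσ, -⟩ := malcev_red hk ψ g hψ
    let σ' : p.ker →* End k (Fin m → k) :=
      ((Matrix.toLinAlgEquiv' : Matrix (Fin m) (Fin m) k ≃ₐ[k] _) :
        Matrix (Fin m) (Fin m) k →* End k (Fin m → k)).comp σ
    have h1 := hB k (Fin m → k) (by rw [finrank_fin_fun]; exact hm) σ'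
    have hVf : Finite (Fin m → k) := inferInstance
    have hEf : Finite (End k (Fin m → k)) :=
      Finite.of_injective (fun f : End k (Fin m → k) => (f : (Fin m → k) → (Fin m → k)))
        DFunLike.coe_injective
    have h2 := hH2 _ σ'.toHomUnits h1 hg
    rw [MonoidHom.mem_ker] at h2
    have h3 : σ' g = 1 := congrArg Units.val h2
    apply hσ
    apply (Matrix.toLinAlgEquiv' : Matrix (Fin m) (Fin m) k ≃ₐ[k] _).injective
    rw [map_one]
    exact h3
  have h1 : φ.ker.FiniteIndex := Subgroup.finiteIndex_of_le hle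
  exact Finite.of_equiv _ (QuotientGroup.quotientKerEquivRange φ).toEquiv

/-- **Finite images.** -/
theorem finite_image {n : ℕ} (hn : 3 ≤ n) {L : Type} [Group L] (hfg : Group.FG L)
    (hL : SameFQ L (SLZ n)) (H : Subgroup L) (hH : H.FiniteIndex)
    {m : ℕ} (hm : m < n) {R : Type} [CommRing R] [IsReduced R] (φ : H →* GL (Fin m) R) :
    Finite φ.range := by
  let C := H.normalCore
  let p : L →* L ⧸ C := QuotientGroup.mk' C
  have hpk : p.ker = C := QuotientGroup.ker_mk' C
  have hle : p.ker ≤ H := by rw [hpk]; exact Subgroup.normalCore_le H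
  have : Finite (L ⧸ C) := inferInstance
  let ι : p.ker →* H := Subgroup.inclusion hle
  have h1 := normal_finite hn hfg hL p (QuotientGroup.mk'_surjective C) hm (φ.comp ι)
  have h2 : (φ.comp ι).ker.FiniteIndex := by
    refine ⟨?_⟩
    rw [Subgroup.index_ker]
    exact Nat.card_pos.ne'
  have h3 : ι.range.FiniteIndex := by
    have e1 : ι.range = p.ker.subgroupOf H := Subgroup.inclusion_range hle
    rw [e1]
    have : p.ker.FiniteIndex := Subgroup.finiteIndex_ker p
    infer_instance
  have h4 : φ.ker.FiniteIndex := by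
    have e2 : ((φ.comp ι).ker.map ι).FiniteIndex := by
      refine ⟨?_⟩
      rw [Subgroup.index_map, (MonoidHom.ker_eq_bot_iff ι).mpr (Subgroup.inclusion_injective hle),
        sup_bot_eq]
      exact mul_ne_zero h2.index_ne_zero h3.index_ne_zero
    refine Subgroup.finiteIndex_of_le (H := (φ.comp ι).ker.map ι) ?_
    rintro _ ⟨x, hx, rfl⟩
    exact hx
  exact Finite.of_equiv _ (QuotientGroup.quotientKerEquivRange φ).toEquiv

end Pool.Agent.Q315.LR
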