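import Pool.Agent.Q315.LR.Fld
import Pool.Agent.H698R4.Malcev

/-! # Actions on modules with few generators -/

set_option autoImplicit false

namespace Pool.Agent.Q315.LR

open Module Function Pool.Agent.Q98.DF

/-- residue fields of finitely generated commutative rings are finite -/
theorem residue_finite (S : Type) [CommRing S] [Algebra ℤ S] [Algebra.FiniteType ℤ S]
    (m : Ideal S) [hm : m.IsMaximal] : Finite (S ⧸ m) := by
  have h0 : Algebra.FiniteType ℤ (S ⧸ m) :=
    Algebra.FiniteType.of_surjective ((Ideal.Quotient.mkₐ S m).restrictScalars ℤ)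
      Ideal.Quotient.mk_surjective
  exact Pool.Agent.H698R4.finite_field_of_finiteType (S ⧸ m)
    ((Ideal.Quotient.maximal_ideal_iff_isField_quotient m).mp hm)

/-- trivial modulo a maximal ideal -/
theorem mod_max {n : ℕ} (hn : 3 ≤ n) {L : Type} [Group L] (hL : SameFQ L (SLZ n))
    {R A : Type} [CommRing R] [AddCommGroup A] [Module R A] (ρ : L →* End R A) {m : ℕ}
    (hm : m < n) (e : Fin m → A) (he : Submodule.span R (Set.range e) = ⊤) (I : Ideal R)
    [hI : I.IsMaximal] [Finite (R ⧸ I)] (g : L) (a : A) :
    ρ g a - a ∈ (I • ⊤ : Submodule R A) := by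
  let N : Submodule R A := I • ⊤
  let B := A ⧸ N
  let k := R ⧸ I
  let _ : Field k := Ideal.Quotient.field I
  let _ : Module k B := inferInstanceAs (Module (R ⧸ I) (A ⧸ (I • ⊤ : Submodule R A)))
  have hst : ∀ f : End R A, N ≤ N.comap f := by
    intro f
    have h1 : N.map f ≤ N := by
      rw [Submodule.map_smul'']
      exact Submodule.smul_mono le_rfl le_top
    exact Submodule.map_le_iff_le_comap.mp h1
  let Qm : End R A → End R B := fun f => N.mapQ N f (hst f)
  have hQ : ∀ (f : End R A) (a : A), Qm f (Submodule.Quotient.mk a) =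
      Submodule.Quotient.mk (f a) := fun f a => Submodule.mapQ_apply _ _ _ _
  have hsm : ∀ (r : R) (b : B), (Ideal.Quotient.mk I r : k) • b = r • b := fun r b => rfl
  let σ : L →* End k B :=
    { toFun := fun g =>
        { toFun := Qm (ρ g)
          map_add' := map_add _
          map_smul' := by
            intro c b
            obtain ⟨r, rfl⟩ := Ideal.Quotient.mk_surjective c
            rw [hsm, map_smul, RingHom.id_apply, hsm] }
      map_one' := by
        apply LinearMap.ext
        intro b
        obtain ⟨a, rfl⟩ := Submodule.Quotient.mk_surjective _ b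
        change Qm (ρ 1) (Submodule.Quotient.mk a) = Submodule.Quotient.mk a
        rw [hQ, map_one]
        rfl
      map_mul' := by
        intro g h
        apply LinearMap.ext
        intro b
        obtain ⟨a, rfl⟩ := Submodule.Quotient.mk_surjective _ b
        change Qm (ρ (g * h)) (Submodule.Quotient.mk a) =
          Qm (ρ g) (Qm (ρ h) (Submodule.Quotient.mk a))
        rw [hQ, hQ, hQ, map_mul]
        rfl }
  have hspan : Submodule.span k (Set.range fun i => (Submodule.Quotient.mk (e i) : B)) = ⊤ := by
    rw [eq_top_iff]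
    intro b _
    obtain ⟨a, rfl⟩ := Submodule.Quotient.mk_surjective _ b
    have ha : a ∈ Submodule.span R (Set.range e) := by rw [he]; trivial
    induction ha using Submodule.span_induction with
    | mem x hx =>
      obtain ⟨i, rfl⟩ := hx
      exact Submodule.subset_span ⟨i, rfl⟩
    | zero => exact zero_mem _
    | add x y _ _ hx hy => exact add_mem (hx trivial) (hy trivial)
    | smul r x _ hx => exact Submodule.smul_mem _ (Ideal.Quotient.mk I r : k) (hx trivial)
  have hfin : Module.Finite k B :=
    Module.finite_def.mpr (Submodule.fg_def.mpr ⟨_, Set.finite_range _, hspan⟩)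
  have hd : finrank k B < n := by
    have h1 := finrank_range_le_card (R := k) (fun i => (Submodule.Quotient.mk (e i) : B))
    rw [Set.finrank, hspan, finrank_top, Fintype.card_fin] at h1
    exact lt_of_le_of_lt h1 hm
  have h1 := fin_trivial hn hL hd σ g
  have h2 := DFunLike.congr_fun h1 (Submodule.Quotient.mk a)
  change Qm (ρ g) (Submodule.Quotient.mk a) = Submodule.Quotient.mk a at h2
  rw [hQ, Submodule.Quotient.eq] at h2
  exact h2

/-- trivial modulo the powers of an ideal -/
theorem mod_pow {L : Type} [Group L] (hL : commutator L = ⊤) {R A : Type} [CommRing R]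
    [AddCommGroup A] [Module R A] (ρ : L →* End R A) (I : Ideal R)
    (h : ∀ g a, ρ g a - a ∈ (I • ⊤ : Submodule R A)) (k : ℕ) (g : L) (a : A) :
    ρ g a - a ∈ (I ^ k • ⊤ : Submodule R A) := by
  suffices H : ∀ (k : ℕ) (g : L) (a : A), ρ g a - a ∈ (I ^ (k + 1) • ⊤ : Submodule R A) by
    rcases k with _ | k
    · rw [pow_zero, Ideal.one_eq_top, Submodule.top_smul]
      exact Submodule.mem_top
    · exact H k g a
  intro k
  induction k with
  | zero => intro g a; rw [zero_add, pow_one]; exact h g a
  | succ k ih =>
    intro g a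
    let N : Submodule R A := I ^ (k + 1 + 1) • ⊤
    -- elements of the power are fixed modulo the next one
    have hz : ∀ (g : L) (z : A), z ∈ (I ^ (k + 1) • ⊤ : Submodule R A) → ρ g z - z ∈ N := by
      intro g z hz
      induction hz using Submodule.smul_induction_on' with
      | smul r hr b _ =>
        rw [map_smul, ← smul_sub]
        have h1 : (I ^ (k + 1 + 1) • ⊤ : Submodule R A) = I ^ (k + 1) • (I • ⊤) := by
          rw [pow_succ, Submodule.mul_smul]
        change _ ∈ (I ^ (k + 1 + 1) • ⊤ : Submodule R A)
        rw [h1]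
        exact Submodule.smul_mem_smul hr (h g b)
      | add x _ y _ hx hy =>
        rw [map_add, add_sub_add_comm]
        exact add_mem hx hy
    let c : L →* Multiplicative (A ⧸ N) :=
      { toFun := fun g => Multiplicative.ofAdd (Submodule.Quotient.mk (ρ g a - a))
        map_one' := by
          rw [map_one, Module.End.one_apply, sub_self]
          rfl
        map_mul' := by
          intro g h'
          rw [← ofAdd_add, ← Submodule.Quotient.mk_add]
          congr 1
          rw [Submodule.Quotient.eq]
          have h1 := hz g _ (ih h' a)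
          have h2 : ρ (g * h') a - a - (ρ g a - a + (ρ h' a - a)) =
              ρ g (ρ h' a - a) - (ρ h' a - a) := by
            rw [map_mul, Module.End.mul_apply, map_sub]
            abel
          rw [h2]
          exact h1 }
    have h1 := perf_trivial hL c (fun _ _ => mul_comm _ _) g
    have h2 : (Submodule.Quotient.mk (ρ g a - a) : A ⧸ N) = 0 := h1
    rwa [Submodule.Quotient.mk_eq_zero] at h2

/-- Krull's theorem at all maximal ideals -/
theorem krull {R A : Type} [CommRing R] [IsNoetherianRing R] [AddCommGroup A] [Module R A]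
    [Module.Finite R A] (x : A)
    (h : ∀ I : Ideal R, I.IsMaximal → ∀ k : ℕ, x ∈ (I ^ k • ⊤ : Submodule R A)) : x = 0 := by
  by_contra hx
  have h1 : Ideal.torsionOf R A x ≠ ⊤ := by
    rw [Ne, Ideal.eq_top_iff_one, Ideal.mem_torsionOf_iff, one_smul]
    exact hx
  obtain ⟨I, hI, hle⟩ := Ideal.exists_le_maximal _ h1
  obtain ⟨⟨r, hr⟩, hrx⟩ := (Ideal.mem_iInf_smul_pow_eq_bot_iff (I := I) x).mp
    (by rw [Submodule.mem_iInf]; exact h I hI)
  change r • x = x at hrx
  have h2 : 1 - r ∈ I := by
    apply hle
    rw [Ideal.mem_torsionOf_iff, sub_smul, one_smul, hrx, sub_self]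
  have h3 : (1 : R) ∈ I := by
    have := add_mem h2 hr
    rwa [sub_add_cancel] at this
  exact hI.ne_top ((Ideal.eq_top_iff_one I).mpr h3)

/-- actions on modules with few generators over finitely generated rings -/
theorem mod_trivial₀ {n : ℕ} (hn : 3 ≤ n) {L : Type} [Group L] (hL : SameFQ L (SLZ n))
    (hp : commutator L = ⊤) {R A : Type} [CommRing R] [Algebra ℤ R] [Algebra.FiniteType ℤ R]
    [AddCommGroup A] [Module R A] (ρ : L →* End R A) {m : ℕ}
    (hm : m < n) (e : Fin m → A) (he : Submodule.span R (Set.range e) = ⊤) (g : L) :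
    ρ g = 1 := by
  have : IsNoetherianRing R := Algebra.FiniteType.isNoetherianRing ℤ R
  have : Module.Finite R A :=
    Module.finite_def.mpr (Submodule.fg_def.mpr ⟨_, Set.finite_range _, he⟩)
  apply LinearMap.ext
  intro a
  rw [Module.End.one_apply, ← sub_eq_zero]
  apply krull (R := R)
  intro I hI k
  have := residue_finite R I
  exact mod_pow hp ρ I (fun g a => mod_max hn hL ρ hm e he I g a) k g a

end Pool.Agent.Q315.LR
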