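import Pool.Agent.Q315.LR.Mal

/-! # Positive characteristic, all dimensions -/

set_option autoImplicit false

namespace Pool.Agent.Q315.LR

open Module Function Pool.Agent.Q98.DF Pool.Agent.H185.ZM Pool.Agent.Q279.PR Pool.Agent.Q315.FE

section Wt

variable {ι K V : Type*} [Field K] [AddCommGroup V] [Module K V] {M : ℕ} {x : ι → ι → End K V}

open Classical in
theorem JE.opIter (hx : StM M x) {o : ι} {χ : {j // j ≠ o} → K} {v : V} (h : JE x o χ v)
    {j k : {j // j ≠ o}} (hjk : j ≠ k) (t : ℕ) :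
    JE x o (Function.update χ j (χ j * (χ k ^ M) ^ t)) ((x j k ^ t) v) := by
  induction t with
  | zero => rw [pow_zero, mul_one, Function.update_eq_self, pow_zero]; exact h
  | succ t ih =>
    have h1 := ih.opM hx hjk
    rw [Function.update_self, Function.update_of_ne (Ne.symm hjk), Function.update_idem] at h1
    rw [pow_succ' (x j k), Module.End.mul_apply, pow_succ, ← mul_assoc]
    exact h1

/-- in every dimension the weights are torsion -/
theorem weights_all (hx : StM M x) [Fintype ι] [FiniteDimensional K V]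
    (h3 : 3 ≤ Fintype.card ι) (o : ι)
    {χ : {j // j ≠ o} → K} {v : V} (h : JE x o χ v) (k : {j // j ≠ o}) :
    χ k ^ (M * (finrank K V).factorial) = 1 := by
  classical
  by_contra hk
  have hlam : ∀ s : ℕ, 0 < s → s ≤ finrank K V → (χ k ^ M) ^ s ≠ 1 := by
    intro s hs hsd hs1
    apply hk
    obtain ⟨c, hc⟩ := Nat.dvd_factorial hs hsd
    rw [pow_mul, hc, pow_mul, hs1, one_pow]
  obtain ⟨l, hlk⟩ : ∃ l : {j // j ≠ o}, l ≠ k := by
    have : Nontrivial {j // j ≠ o} := by
      rw [← Fintype.one_lt_card_iff_nontrivial, Fintype.card_subtype_compl,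
        Fintype.card_subtype_eq]
      omega
    exact exists_ne k
  have hk0 : χ k ^ M ≠ 0 := pow_ne_zero _ (h.ne_zero' hx k)
  have hl0 := h.ne_zero' hx l
  let W : Fin (finrank K V + 1) → {j // j ≠ o} → K := fun t =>
    Function.update χ l (χ l * (χ k ^ M) ^ (t : ℕ))
  have hW : Function.Injective W := by
    have key : ∀ s t : Fin (finrank K V + 1), (s : ℕ) < t → W s ≠ W t := by
      intro s t hst he
      have h1 := congrFun he l
      change Function.update χ l (χ l * (χ k ^ M) ^ (s : ℕ)) l =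
        Function.update χ l (χ l * (χ k ^ M) ^ (t : ℕ)) l at h1
      rw [Function.update_self, Function.update_self] at h1
      have h2 := mul_left_cancel₀ hl0 h1
      have h4 : (t : ℕ) = s + (t - s) := by omega
      rw [h4, pow_add] at h2
      have h5 : (χ k ^ M) ^ ((t : ℕ) - s) = 1 :=
        mul_left_cancel₀ (pow_ne_zero _ hk0) (h2.symm.trans (mul_one _).symm)
      exact hlam _ (by omega) (by have := t.2; omega) h5
    intro s t he
    rcases lt_trichotomy (s : ℕ) t with h1 | h1 | h1
    · exact absurd he (key s t h1)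
    · exact Fin.ext h1
    · exact absurd he.symm (key t s h1)
  have h4 := card_le' hx o W hW (fun t => (x l k ^ (t : ℕ)) v) fun t => h.opIter hx hlk t
  rw [Fintype.card_fin] at h4
  omega

theorem unipotent_all (hx : StM M x) [Fintype ι] [FiniteDimensional K V] [IsAlgClosed K]
    (h3 : 3 ≤ Fintype.card ι) (i j : ι) (hij : i ≠ j) :
    IsNilpotent (x i j ^ (M * (finrank K V).factorial) - 1) := by
  set P := M * (finrank K V).factorial with hP
  apply unip_of_eig
  intro v c hv hvc
  have hc : ∀ a b : {j // j ≠ i}, x i a * x i b = x i b * x i a := fun a b =>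
    hx.comm i a i b (Ne.symm a.2) (Ne.symm b.2) a.2 (Ne.symm b.2)
  let E : Submodule K V := LinearMap.ker (x i j ^ P - c • LinearMap.id)
  have hE : E ≠ ⊥ := by
    rw [Submodule.ne_bot_iff]
    refine ⟨v, ?_, hv⟩
    rw [LinearMap.mem_ker, LinearMap.sub_apply, hvc]
    simp
  obtain ⟨w, hw, hw0, χ, hχ⟩ := joint (fun a : {j // j ≠ i} => x i a) hc E hE (by
    intro a u hu
    rw [LinearMap.mem_ker, LinearMap.sub_apply, sub_eq_zero] at hu ⊢
    have hcc : Commute (x i j) (x i a) := hc ⟨j, Ne.symm hij⟩ a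
    have h5 : (x i j ^ P) (x i a u) = x i a ((x i j ^ P) u) :=
      DFunLike.congr_fun (hcc.pow_left P) u
    rw [h5, hu]
    simp)
  have h1 := weights_all hx h3 i (⟨hw0, hχ⟩ : JE x i χ w) ⟨j, Ne.symm hij⟩
  have h2 := pow_eig (hχ ⟨j, Ne.symm hij⟩) P
  rw [LinearMap.mem_ker, LinearMap.sub_apply, sub_eq_zero] at hw
  change (x i j ^ P) w = _ at h2
  rw [hw, h1] at h2
  have h4 : (c - 1) • w = 0 := by
    rw [sub_smul]
    rw [sub_eq_zero]
    exact h2
  rcases smul_eq_zero.mp h4 with h5 | h5
  · exact sub_eq_zero.mp h5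
  · exact absurd h5 hw0

end Wt

/-- unipotent elements have bounded order in positive characteristic -/
theorem unip_order {K V : Type*} [Field K] [AddCommGroup V] [Module K V] [FiniteDimensional K V]
    (k : ℕ) (hk : (k : K) = 0) {f : End K V} (hf : IsNilpotent (f - 1)) :
    f ^ (k ^ finrank K V) = 1 := by
  by_cases hV : Subsingleton V
  · ext v
    exact Subsingleton.elim _ _
  have hVn : Nontrivial V := not_subsingleton_iff_nontrivial.mp hV
  obtain ⟨p, hp⟩ := CharP.exists K
  have hpk : p ∣ k := (CharP.cast_eq_zero_iff K p k).mp hk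
  rcases CharP.char_is_prime_or_zero K p with hpp | hp0
  · have : Fact p.Prime := ⟨hpp⟩
    have : CharP (End K V) p :=
      charP_of_injective_algebraMap (FaithfulSMul.algebraMap_injective K (End K V)) p
    have h1 : f ^ (p ^ finrank K V) = 1 := by
      have h2 := sub_pow_char_pow_of_commute p (finrank K V) (Commute.one_right f)
      have h3 : (f - 1) ^ (p ^ finrank K V) = 0 :=
        pow_eq_zero_of_le (Nat.lt_pow_self hpp.one_lt).le (nil_finrank hf)
      rw [h3, one_pow] at h2
      exact (sub_eq_zero.mp h2.symm)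
    obtain ⟨c, hc⟩ := pow_dvd_pow_of_dvd hpk (finrank K V)
    rw [hc, pow_mul, h1, one_pow]
  · subst hp0
    have hk0 : k = 0 := Nat.eq_zero_of_zero_dvd hpk
    subst hk0
    rcases Nat.eq_zero_or_pos (finrank K V) with h0 | h0
    · exact absurd (finrank_zero_iff.mp h0) hV
    · rw [zero_pow h0.ne', pow_zero]

/-- **A uniform kernel** for the representations of dimension `d` in characteristic dividing `k`. -/
theorem uni_kernel_pos {n : ℕ} (hn : 3 ≤ n) {F₀ : Type} [Group F₀] [Finite F₀] (q : SLZ n →* F₀)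
    (d k : ℕ) (hk : 0 < k) :
    ∃ D : Subgroup (SLZ n), D.Normal ∧ D.FiniteIndex ∧ D ≤ q.ker ∧
      ∀ (K V : Type) [Field K] [AddCommGroup V] [Module K V] [FiniteDimensional K V],
        (k : K) = 0 → finrank K V = d → ∀ θ : q.ker →* End K V,
          ∀ (g : SLZ n) (hg : g ∈ q.ker), g ∈ D → θ ⟨g, hg⟩ = 1 := by
  let N₀ := Nat.card F₀
  have hN₀ : 0 < N₀ := Nat.card_pos
  have hpow : ∀ x : SLZ n, q (x ^ N₀) = 1 := fun x => by rw [map_pow, pow_card_eq_one']
  have hmem : ∀ {i j : Fin n} (h : i ≠ j) (c : ℤ), el h ((N₀ : ℤ) * c) ∈ q.ker := by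
    intro i j h c
    rw [MonoidHom.mem_ker, ← el_pow]
    exact hpow _
  have hmem1 : ∀ {i j : Fin n} (h : i ≠ j), el h (N₀ : ℤ) ∈ q.ker := by
    intro i j h
    have := hmem h 1
    rwa [mul_one] at this
  let P := N₀ * d.factorial
  have hP : 0 < P := Nat.mul_pos hN₀ (Nat.factorial_pos d)
  let e := k ^ d
  have he : 0 < e := by positivity
  let Q := P * e * N₀
  have hQ : 0 < Q := by positivity
  have hmemQ : ∀ {i j : Fin n} (h : i ≠ j) (c : ℤ), el h ((Q : ℤ) * c) ∈ q.ker := by
    intro i j h c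
    have h1 : (Q : ℤ) * c = (N₀ : ℤ) * ((P : ℤ) * e * c) := by
      simp only [Q]; push_cast; ring
    rw [h1]
    exact hmem h _
  -- the base case
  have base : ∀ (K V : Type) [Field K] [AddCommGroup V] [Module K V] [FiniteDimensional K V],
      (k : K) = 0 → finrank K V = d → ∀ (θ : q.ker →* End K V) (i j : Fin n) (h : i ≠ j) (c : ℤ),
        θ ⟨el h ((Q : ℤ) * c), hmemQ h c⟩ = 1 := by
    intro K V _ _ _ _ hkK hd θ i j h c
    -- algebraic closure
    classical
    let b : Basis (Fin (finrank K V)) K V := finBasis K V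
    let F := AlgebraicClosure K
    let Φ : End K V →* End F (Fin (finrank K V) → F) :=
      ((Matrix.toLinAlgEquiv' : Matrix (Fin (finrank K V)) (Fin (finrank K V)) F ≃ₐ[F] _) :
          Matrix (Fin (finrank K V)) (Fin (finrank K V)) F →* End F (Fin (finrank K V) → F)).comp
        (((algebraMap K F).mapMatrix : Matrix (Fin (finrank K V)) (Fin (finrank K V)) K →+*
            Matrix (Fin (finrank K V)) (Fin (finrank K V)) F) :
          Matrix (Fin (finrank K V)) (Fin (finrank K V)) K →*
            Matrix (Fin (finrank K V)) (Fin (finrank K V)) F) |>.comp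
        ((LinearMap.toMatrixAlgEquiv b : End K V ≃ₐ[K] _) :
          End K V →* Matrix (Fin (finrank K V)) (Fin (finrank K V)) K)
    have hΦ : Injective Φ := by
      have h1 : Injective ((algebraMap K F).mapMatrix :
          Matrix (Fin (finrank K V)) (Fin (finrank K V)) K →+*
            Matrix (Fin (finrank K V)) (Fin (finrank K V)) F) := by
        intro M N h
        ext i j
        have h2 := congrFun (congrFun h i) j
        exact (algebraMap K F).injective h2
      exact ((Matrix.toLinAlgEquiv' : Matrix (Fin (finrank K V)) (Fin (finrank K V)) F ≃ₐ[F] _).injective.comp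
        h1).comp (LinearMap.toMatrixAlgEquiv b : End K V ≃ₐ[K] _).injective
    have hkF : (k : F) = 0 := by
      have h1 : algebraMap K F (k : K) = (k : F) := map_natCast _ k
      rw [← h1, hkK, map_zero]
    have hW : finrank F (Fin (finrank K V) → F) = d := by rw [finrank_fin_fun, hd]
    apply hΦ
    rw [map_one]
    let σ : q.ker →* End F (Fin (finrank K V) → F) := Φ.comp θ
    change σ ⟨el h ((Q : ℤ) * c), hmemQ h c⟩ = 1
    let x : Fin n → Fin n → End F (Fin (finrank K V) → F) := fun i j =>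
      if h : i ≠ j then σ ⟨el h (N₀ : ℤ), hmem1 h⟩ else 1
    have hxe : ∀ i j (h : i ≠ j), x i j = σ ⟨el h (N₀ : ℤ), hmem1 h⟩ := fun i j h => by
      simp only [x]
      rw [dif_pos h]
    have hx : StM N₀ x := by
      refine ⟨?_, ?_, ?_⟩
      · intro i j h u v huv
        rw [hxe i j h] at huv
        have h1 : σ (⟨el h (N₀ : ℤ), hmem1 h⟩ : q.ker)⁻¹ * σ ⟨el h (N₀ : ℤ), hmem1 h⟩ = 1 := by
          rw [← map_mul, inv_mul_cancel, map_one]
        have h2 := congrArg (σ (⟨el h (N₀ : ℤ), hmem1 h⟩ : q.ker)⁻¹) huv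
        rw [← Module.End.mul_apply, ← Module.End.mul_apply, h1] at h2
        exact h2
      · intro i j k hij hjk hik
        rw [hxe i j hij, hxe j k hjk, hxe i k hik, ← map_pow, ← map_mul, ← map_mul, ← map_mul]
        congr 1
        apply Subtype.ext
        change el hij (N₀ : ℤ) * el hjk (N₀ : ℤ) = el hik (N₀ : ℤ) ^ N₀ *
          (el hjk (N₀ : ℤ) * el hij (N₀ : ℤ))
        rw [el_comm hij hjk hik, el_pow]
      · intro i j k l hij hkl hjk hil
        rw [hxe i j hij, hxe k l hkl, ← map_mul, ← map_mul]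
        congr 1
        apply Subtype.ext
        exact el_commute hij hkl hjk hil _ _
    have hcard : Fintype.card (Fin n) = n := Fintype.card_fin n
    have h0 := unipotent_all hx (by rw [hcard]; exact hn) i j h
    rw [hW] at h0
    have h1 := unip_order k hkF h0
    rw [hW] at h1
    change (x i j ^ P) ^ e = 1 at h1
    rw [← pow_mul, hxe i j h, ← map_pow] at h1
    let T : Subgroup (SLZ n) := (σ.ker).map q.ker.subtype
    have h2 : el h (Q : ℤ) ∈ T := by
      refine ⟨(⟨el h (N₀ : ℤ), hmem1 h⟩ : q.ker) ^ (P * e), h1, ?_⟩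
      change el h (N₀ : ℤ) ^ (P * e) = _
      rw [el_pow]
      congr 1
    have h3 : el h ((Q : ℤ) * c) ∈ T := by
      rw [← el_zpow]
      exact T.zpow_mem h2 c
    obtain ⟨y, hy, hy2⟩ := h3
    have h4 : y = ⟨el h ((Q : ℤ) * c), hmemQ h c⟩ := Subtype.ext hy2
    rw [← h4]
    exact hy
  let S : Set (SLZ n) := {g | ∃ (i j : Fin n) (h : i ≠ j) (c : ℤ), el h ((Q : ℤ) * c) = g}
  let D := Subgroup.normalClosure S
  have hHas : Has (Q : ℤ) D := fun i j h c => Subgroup.subset_normalClosure ⟨i, j, h, c, rfl⟩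
  have hDq : D ≤ q.ker := by
    apply Subgroup.normalClosure_le_normal
    rintro _ ⟨i, j, h, c, rfl⟩
    exact hmemQ h c
  refine ⟨D, inferInstance, fin_index hn Q hQ D hHas, hDq, ?_⟩
  intro K V _ _ _ _ hkK hd θ g hg hgD
  let T : Subgroup (SLZ n) := (θ.ker).map q.ker.subtype
  have hle : D ≤ T := by
    change Subgroup.closure _ ≤ T
    rw [Subgroup.closure_le]
    intro y hy
    rw [Group.mem_conjugatesOfSet_iff] at hy
    obtain ⟨_, ⟨i, j, h, c, rfl⟩, hy2⟩ := hy
    rw [isConj_iff] at hy2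
    obtain ⟨s, rfl⟩ := hy2
    let θs : q.ker →* End K V := θ.comp (MulAut.conjNormal s : MulAut q.ker).toMonoidHom
    have h1 := base K V hkK hd θs i j h c
    refine ⟨MulAut.conjNormal s ⟨el h ((Q : ℤ) * c), hmemQ h c⟩, h1, ?_⟩
    exact MulAut.conjNormal_apply s _
  obtain ⟨y, hy, hy2⟩ := hle hgD
  have h4 : y = ⟨g, hg⟩ := Subtype.ext hy2
  rw [← h4]
  exact hy

/-- **A uniform bound** in positive characteristic. -/
theorem fin_bound_pos {n : ℕ} (hn : 3 ≤ n) {L : Type} [Group L] (hfg : Group.FG L)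
    (hL : SameFQ L (SLZ n)) {F₀ : Type} [Group F₀] [Finite F₀] (p : L →* F₀) (hp : Surjective p)
    (d k : ℕ) (hk : 0 < k) :
    ∃ B : ℕ, ∀ (K V : Type) [Field K] [Finite K] [AddCommGroup V] [Module K V]
      [FiniteDimensional K V], (k : K) = 0 → finrank K V = d → ∀ σ : p.ker →* End K V,
        Nat.card σ.toHomUnits.range ≤ B := by
  obtain ⟨q, hq, hc⟩ := matching hfg (fg_SLZ n) (fun Q _ _ => (hL Q).symm) p hp
  have hs : SFQ q.ker p.ker := hc.sfq hfg (fg_SLZ n)
  obtain ⟨D, hD1, hD2, hD3, hD4⟩ := uni_kernel_pos hn q d k hk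
  refine ⟨D.index, ?_⟩
  intro K V _ _ _ _ _ hkK hd σ
  have hVf : Finite V := Module.finite_of_finite K
  have hEf : Finite (End K V) := Finite.of_injective (fun f : End K V => (f : V → V))
    DFunLike.coe_injective
  let τ := σ.toHomUnits
  obtain ⟨f, hf⟩ := (hs τ.range).mpr ⟨τ.rangeRestrict, τ.rangeRestrict_surjective⟩
  let θ : q.ker →* End K V := ((Units.coeHom (End K V)).comp (Subgroup.subtype τ.range)).comp f
  have h1 : D.subgroupOf q.ker ≤ f.ker := by
    rintro ⟨g, hg⟩ hgD
    have h2 := hD4 K V hkK hd θ g hg hgD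
    rw [MonoidHom.mem_ker]
    apply Subtype.ext
    apply Units.ext
    exact h2
  have h2 : f.ker.index = Nat.card τ.range := by
    rw [Subgroup.index_ker, MonoidHom.range_eq_top.mpr hf, Subgroup.card_top]
  rw [← h2]
  have h3 : f.ker.index ∣ (D.subgroupOf q.ker).index := Subgroup.index_dvd_of_le h1
  have h4 : (D.subgroupOf q.ker).index ∣ D.index := Subgroup.relIndex_dvd_index_of_normal D q.ker
  exact Nat.le_of_dvd (Nat.pos_of_ne_zero hD2.index_ne_zero) (h3.trans h4)

theorem normal_finite_pos {n : ℕ} (hn : 3 ≤ n) {L : Type} [Group L] (hfg : Group.FG L)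
    (hL : SameFQ L (SLZ n)) {F₀ : Type} [Group F₀] [Finite F₀] (p : L →* F₀) (hp : Surjective p)
    {d k : ℕ} (hk0 : 0 < k) {R : Type} [CommRing R] [IsReduced R] (hkR : (k : R) = 0)
    (φ : p.ker →* GL (Fin d) R) : Finite φ.range := by
  obtain ⟨B, hB⟩ := fin_bound_pos hn hfg hL p hp d k hk0
  have hk := fg_ker hfg p
  obtain ⟨H, hH, hH2⟩ := exists_big hk B
  have hle : H ≤ φ.ker := by
    intro g hg
    rw [MonoidHom.mem_ker]
    by_contra hne
    let ψ : p.ker →* Matrix (Fin d) (Fin d) R := (Units.coeHom _).comp φ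
    have hψ : ψ g ≠ 1 := fun h => hne (Units.ext h)
    obtain ⟨K, _, _, σ, hσ, hch⟩ := malcev_red hk ψ g hψ
    let σ' : p.ker →* End K (Fin d → K) :=
      ((Matrix.toLinAlgEquiv' : Matrix (Fin d) (Fin d) K ≃ₐ[K] _) :
        Matrix (Fin d) (Fin d) K →* End K (Fin d → K)).comp σ
    have h1 := hB K (Fin d → K) (hch k hkR) (by rw [finrank_fin_fun]) σ'
    have hVf : Finite (Fin d → K) := inferInstance
    have hEf : Finite (End K (Fin d → K)) :=
      Finite.of_injective (fun f : End K (Fin d → K) => (f : (Fin d → K) → (Fin d → K)))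
        DFunLike.coe_injective
    have h2 := hH2 _ σ'.toHomUnits h1 hg
    rw [MonoidHom.mem_ker] at h2
    have h3 : σ' g = 1 := congrArg Units.val h2
    apply hσ
    apply (Matrix.toLinAlgEquiv' : Matrix (Fin d) (Fin d) K ≃ₐ[K] _).injective
    rw [map_one]
    exact h3
  have h1 : φ.ker.FiniteIndex := Subgroup.finiteIndex_of_le hle
  exact Finite.of_equiv _ (QuotientGroup.quotientKerEquivRange φ).toEquiv

/-- **Finite images in positive characteristic.** -/
theorem finite_image_pos {n : ℕ} (hn : 3 ≤ n) {L : Type} [Group L] (hfg : Group.FG L)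
    (hL : SameFQ L (SLZ n)) (H : Subgroup L) (hH : H.FiniteIndex)
    {d k : ℕ} (hk0 : 0 < k) {R : Type} [CommRing R] [IsReduced R] (hkR : (k : R) = 0)
    (φ : H →* GL (Fin d) R) : Finite φ.range := by
  let C := H.normalCore
  let p : L →* L ⧸ C := QuotientGroup.mk' C
  have hpk : p.ker = C := QuotientGroup.ker_mk' C
  have hle : p.ker ≤ H := by rw [hpk]; exact Subgroup.normalCore_le H
  have : Finite (L ⧸ C) := inferInstance
  let ι : p.ker →* H := Subgroup.inclusion hle
  have h1 := normal_finite_pos hn hfg hL p (QuotientGroup.mk'_surjective C) hk0 hkR (φ.comp ι)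
  have h2 : (φ.comp ι).ker.FiniteIndex := by
    refine ⟨?_⟩
    rw [Subgroup.index_ker]
    exact Nat.card_pos.ne'
  have h3 : ι.range.FiniteIndex := by
    have e1 : ι.range = p.ker.subgroupOf H := Subgroup.inclusion_range hle
    rw [e1]
    have : p.ker.FiniteIndex := Subgroup.finiteIndex_ker p
    infer_instance
  have h4 : φ.ker.FiniteIndex := by
    have e2 : ((φ.comp ι).ker.map ι).FiniteIndex := by
      refine ⟨?_⟩
      rw [Subgroup.index_map, (MonoidHom.ker_eq_bot_iff ι).mpr (Subgroup.inclusion_injective hle),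
        sup_bot_eq]
      exact mul_ne_zero h2.index_ne_zero h3.index_ne_zero
    refine Subgroup.finiteIndex_of_le (H := (φ.comp ι).ker.map ι) ?_
    rintro _ ⟨x, hx, rfl⟩
    exact hx
  exact Finite.of_equiv _ (QuotientGroup.quotientKerEquivRange φ).toEquiv

end Pool.Agent.Q315.LR
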