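import Pool.Agent.Q315.LR.Ind

/-! # Representations of small dimension of Steinberg groups with an exponent: weights -/

set_option autoImplicit false

namespace Pool.Agent.Q315.LR

open Module

/-- the relations of the Steinberg group, with an exponent -/
structure StM {ι K V : Type*} [Field K] [AddCommGroup V] [Module K V] (M : ℕ)
    (x : ι → ι → End K V) : Prop where
  inj : ∀ i j, i ≠ j → Function.Injective (x i j)
  rel : ∀ i j k, i ≠ j → j ≠ k → i ≠ k → x i j * x j k = x i k ^ M * (x j k * x i j)
  comm : ∀ i j k l, i ≠ j → k ≠ l → j ≠ k → i ≠ l → x i j * x k l = x k l * x i j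

theorem pow_eig {K V : Type*} [Field K] [AddCommGroup V] [Module K V] {f : End K V} {c : K} {v : V}
    (h : f v = c • v) (m : ℕ) : (f ^ m) v = c ^ m • v := by
  induction m with
  | zero => simp
  | succ m ih => rw [pow_succ, Module.End.mul_apply, h, map_smul, ih, smul_smul, pow_succ, mul_comm]

section Wt

variable {ι K V : Type*} [Field K] [AddCommGroup V] [Module K V] {M : ℕ} {x : ι → ι → End K V}

theorem JE.ne_zero' (hx : StM M x) {o : ι} {χ : {j // j ≠ o} → K} {v : V} (h : JE x o χ v)
    (j : {j // j ≠ o}) : χ j ≠ 0 := by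
  intro h0
  apply h.1
  apply hx.inj o j (Ne.symm j.2)
  rw [h.2 j, h0, zero_smul, map_zero]

open Classical in
theorem JE.opM (hx : StM M x) {o : ι} {χ : {j // j ≠ o} → K} {v : V} (h : JE x o χ v)
    {j k : {j // j ≠ o}} (hjk : j ≠ k) :
    JE x o (Function.update χ j (χ j * χ k ^ M)) (x j k v) := by
  have hjk' : (j : ι) ≠ k := fun h => hjk (Subtype.ext h)
  refine ⟨fun h0 => h.1 (hx.inj j k hjk' (by rw [h0, map_zero])), ?_⟩
  intro l
  by_cases hl : l = j
  · subst hl
    rw [Function.update_self]
    have h1 := DFunLike.congr_fun (hx.rel o l k (Ne.symm l.2) hjk' (Ne.symm k.2)) v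
    have hc : Commute (x o k) (x l k) := hx.comm o k l k (Ne.symm k.2) hjk' (Ne.symm hjk')
      (Ne.symm k.2)
    have h2 : (x o k ^ M) (x l k v) = x l k ((x o k ^ M) v) :=
      DFunLike.congr_fun (hc.pow_left M) v
    simp only [Module.End.mul_apply] at h1
    rw [h1, h.2 l, map_smul, map_smul, h2, pow_eig (h.2 k), map_smul, smul_smul]
  · rw [Function.update_of_ne hl]
    have hl' : (l : ι) ≠ j := fun h => hl (Subtype.ext h)
    have h1 := DFunLike.congr_fun (hx.comm o l j k (Ne.symm l.2) hjk' hl' (Ne.symm k.2)) v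
    simp only [Module.End.mul_apply] at h1
    rw [h1, h.2 l, map_smul]

theorem card_le' (hx : StM M x) [Fintype ι] [FiniteDimensional K V] (o : ι) {A : Type*} [Fintype A]
    (w : A → {j // j ≠ o} → K) (hw : Function.Injective w) (u : A → V)
    (h : ∀ a, JE x o (w a) (u a)) : Fintype.card A ≤ finrank K V := by
  classical
  have hc : ∀ i j : {j // j ≠ o}, Commute (x o i) (x o j) := fun i j =>
    hx.comm o i o j (Ne.symm i.2) (Ne.symm j.2) i.2 (Ne.symm j.2)
  have h1 := Module.End.independent_iInf_maxGenEigenspace_of_forall_mapsTo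
    (fun j : {j // j ≠ o} => x o j)
    (fun i j φ => Module.End.mapsTo_maxGenEigenspace_of_comm (hc j i) φ)
  have h2 := h1.comp hw
  have h3 : LinearIndependent K u := by
    refine h2.linearIndependent _ (fun a => ?_) (fun a => (h a).1)
    simp only [Function.comp_apply, Submodule.mem_iInf]
    intro j
    rw [Module.End.mem_maxGenEigenspace]
    refine ⟨1, ?_⟩
    rw [pow_one, LinearMap.sub_apply, (h a).2 j]
    simp
  exact h3.fintype_card_le_finrank

open Classical in
/-- in small dimension the weights are torsion -/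
theorem weights_tors (hx : StM M x) [Fintype ι] [FiniteDimensional K V]
    (h3 : 3 ≤ Fintype.card ι) (hd : finrank K V < Fintype.card ι) (o : ι)
    {χ : {j // j ≠ o} → K} {v : V} (h : JE x o χ v) (k : {j // j ≠ o}) : χ k ^ (M * M) = 1 := by
  by_contra hk
  have hkM : χ k ^ M ≠ 1 := fun h => hk (by rw [pow_mul, h, one_pow])
  -- a second index
  have hcard : Fintype.card {j // j ≠ o} = Fintype.card ι - 1 := by
    rw [Fintype.card_subtype_compl, Fintype.card_subtype_eq]
  obtain ⟨l, hlk⟩ : ∃ l : {j // j ≠ o}, l ≠ k := by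
    have : Nontrivial {j // j ≠ o} := by
      rw [← Fintype.one_lt_card_iff_nontrivial]
      omega
    exact exists_ne k
  obtain ⟨χ', v', h', hk', hl'⟩ : ∃ (χ' : {j // j ≠ o} → K) (v' : V), JE x o χ' v' ∧
      χ' k = χ k ∧ χ' l ^ M ≠ 1 := by
    by_cases hl : χ l ^ M = 1
    · refine ⟨_, _, h.opM hx hlk, ?_, ?_⟩
      · rw [Function.update_of_ne (Ne.symm hlk)]
      · rw [Function.update_self, mul_pow, hl, one_mul, ← pow_mul]
        exact hk
    · exact ⟨χ, v, h, rfl, hl⟩
  have hη := h'.opM hx (Ne.symm hlk)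
  let W : Option (Option {j : {j // j ≠ o} // j ≠ k}) → {j // j ≠ o} → K := fun a =>
    match a with
    | none => Function.update χ' k (χ' k * χ' l ^ M)
    | some none => χ
    | some (some j) => Function.update χ j (χ j * χ k ^ M)
  let U : Option (Option {j : {j // j ≠ o} // j ≠ k}) → V := fun a =>
    match a with
    | none => x k l v'
    | some none => v
    | some (some j) => x j k v
  have hU : ∀ a, JE x o (W a) (U a) := by
    rintro (_ | _ | j)
    · exact hη
    · exact h
    · exact h.opM hx j.2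
  have e0 : W none k ≠ χ k := by
    change Function.update χ' k (χ' k * χ' l ^ M) k ≠ χ k
    rw [Function.update_self, hk']
    intro h0
    exact hl' (mul_left_cancel₀ (h.ne_zero' hx k) (h0.trans (mul_one _).symm))
  have e1 : ∀ b, W (some b) k = χ k := by
    rintro (_ | j)
    · rfl
    · change Function.update χ j.1 (χ j * χ k ^ M) k = χ k
      rw [Function.update_of_ne (Ne.symm j.2)]
  have e2 : ∀ j : {j : {j // j ≠ o} // j ≠ k}, W (some (some j)) j ≠ χ j := by
    intro j h0
    change Function.update χ j.1 (χ j * χ k ^ M) j.1 = χ j at h0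
    rw [Function.update_self] at h0
    exact hkM (mul_left_cancel₀ (h.ne_zero' hx j) (h0.trans (mul_one _).symm))
  have e3 : ∀ i j : {j : {j // j ≠ o} // j ≠ k}, i ≠ j → W (some (some i)) j = χ j := by
    intro i j hij
    change Function.update χ i.1 (χ i * χ k ^ M) j.1 = χ j
    rw [Function.update_of_ne (fun h => hij (Subtype.ext h.symm))]
  have hW : Function.Injective W := by
    rintro (_ | _ | i) (_ | _ | j) hab
    · rfl
    · exact (e0 ((congrFun hab k).trans (e1 none))).elim
    · exact (e0 ((congrFun hab k).trans (e1 (some j)))).elim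
    · exact (e0 ((congrFun hab k).symm.trans (e1 none))).elim
    · rfl
    · exact (e2 j (congrFun hab j.1).symm).elim
    · exact (e0 ((congrFun hab k).symm.trans (e1 (some i)))).elim
    · exact (e2 i (congrFun hab i.1)).elim
    · by_contra hne
      have hij : i ≠ j := fun h => hne (by rw [h])
      exact e2 j ((congrFun hab j.1).symm.trans (e3 i j hij))
  have h4 := card_le' hx o W hW U hU
  rw [Fintype.card_option, Fintype.card_option, Fintype.card_subtype_compl,
    Fintype.card_subtype_eq, hcard] at h4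
  omega

theorem unipotent' (hx : StM M x) [Fintype ι] [FiniteDimensional K V] [IsAlgClosed K]
    (h3 : 3 ≤ Fintype.card ι) (hd : finrank K V < Fintype.card ι) (i j : ι) (hij : i ≠ j) :
    IsNilpotent (x i j ^ (M * M) - 1) := by
  apply unip_of_eig
  intro v c hv hvc
  have hc : ∀ a b : {j // j ≠ i}, x i a * x i b = x i b * x i a := fun a b =>
    hx.comm i a i b (Ne.symm a.2) (Ne.symm b.2) a.2 (Ne.symm b.2)
  let E : Submodule K V := LinearMap.ker (x i j ^ (M * M) - c • LinearMap.id)
  have hE : E ≠ ⊥ := by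
    rw [Submodule.ne_bot_iff]
    refine ⟨v, ?_, hv⟩
    rw [LinearMap.mem_ker, LinearMap.sub_apply, hvc]
    simp
  obtain ⟨w, hw, hw0, χ, hχ⟩ := joint (fun a : {j // j ≠ i} => x i a) hc E hE (by
    intro a u hu
    rw [LinearMap.mem_ker, LinearMap.sub_apply, sub_eq_zero] at hu ⊢
    have hcc : Commute (x i j) (x i a) := hc ⟨j, Ne.symm hij⟩ a
    have h5 : (x i j ^ (M * M)) (x i a u) = x i a ((x i j ^ (M * M)) u) :=
      DFunLike.congr_fun (hcc.pow_left (M * M)) u
    rw [h5, hu]
    simp)
  have h1 := weights_tors hx h3 hd i (⟨hw0, hχ⟩ : JE x i χ w) ⟨j, Ne.symm hij⟩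
  have h2 := pow_eig (hχ ⟨j, Ne.symm hij⟩) (M * M)
  rw [LinearMap.mem_ker, LinearMap.sub_apply, sub_eq_zero] at hw
  change (x i j ^ (M * M)) w = _ at h2
  rw [hw, h1] at h2
  have h4 : (c - 1) • w = 0 := by
    rw [sub_smul]
    rw [sub_eq_zero]
    exact h2
  rcases smul_eq_zero.mp h4 with h5 | h5
  · exact sub_eq_zero.mp h5
  · exact absurd h5 hw0

end Wt

end Pool.Agent.Q315.LR
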